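import Mathlib

/-!
MP_1e629d_co, part (D): common definitions (hook words, crossing, row insertion, chains, paths).

Letters: a type `α` with ONE relation `R a b` = a standing before b is an ascent. Only used:
`R` is transitive and its negation is transitive (structure `Sup`).
Words are lists; the first letter of the list acts first; products are taken in this order.
-/

set_option autoImplicit false

open Finset

namespace Pool.Agent.H71.RW

variable {α : Type*}

/-- `R` and its negation are transitive. -/
structure Sup (R : α → α → Prop) : Prop where
  tr : ∀ a b c : α, R a b → R b c → R a c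
  nt : ∀ a b c : α, ¬ R a b → ¬ R b c → ¬ R a c

/-- descending lists: no pair is an ascent. -/
def DL (R : α → α → Prop) (l : List α) : Prop := l.Pairwise fun a b => ¬ R a b

/-- ascending lists: every pair is an ascent. -/
def AL (R : α → α → Prop) (l : List α) : Prop := l.Pairwise R

/-- hook words: a descending list followed by an ascending list. -/
def Hk (R : α → α → Prop) (w : List α) : Prop := ∃ D A, w = D ++ A ∧ DL R D ∧ AL R A

/-- all hook subwords of `w` have length at most `k`. -/
def Bd (R : α → α → Prop) (w : List α) (k : ℕ) : Prop :=
  ∀ s : List α, s.Sublist w → Hk R s → s.length ≤ k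

/-- The crossing `u x = y w` (only for `u x` not a hook word): with `u = D A`, the letter `a` is the
first letter of `A` which is not followed by `x` as an ascent, `y` is the first letter of `D`
which is followed by `a` as an ascent; `w` = `u` with `y` replaced by `a` and `a` replaced by
`x`. -/
def Cr (R : α → α → Prop) (u : List α) (x y : α) (w : List α) : Prop :=
  ∃ (D1 D2 A1 A2 : List α) (a : α),
    u = (D1 ++ y :: D2) ++ (A1 ++ a :: A2) ∧
    w = (D1 ++ a :: D2) ++ (A1 ++ x :: A2) ∧
    DL R (D1 ++ y :: D2) ∧ AL R (A1 ++ a :: A2) ∧
    (∀ b ∈ A1, R b x) ∧ ¬ R a x ∧ (∀ e ∈ D1, ¬ R e a) ∧ R y a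

/-- the relation for reversed words. -/
def Rv (R : α → α → Prop) : α → α → Prop := fun a b => ¬ R b a

/-- Row insertion of a letter `x` into a list of rows `T` (the first row is the longest one and
stands at the END of the word); `r` is the index (from `0`) of the row which grows. -/
inductive Ins (R : α → α → Prop) : List (List α) → α → List (List α) → ℕ → Prop
  | nil (x : α) : Ins R [] x [[x]] 0
  | grow (u : List α) (T : List (List α)) (x : α) (h : Hk R (u ++ [x])) :
      Ins R (u :: T) x ((u ++ [x]) :: T) 0
  | bump (u w : List α) (T T' : List (List α)) (x y : α) (r : ℕ) (hc : Cr R u x y w)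
      (hT : Ins R T y T' r) : Ins R (u :: T) x (w :: T') (r + 1)

/-- chains (decomposition tableaux): hook words of strictly decreasing lengths, every row being
a longest hook subword of (next row)(row). -/
def Ch (R : α → α → Prop) : List (List α) → Prop
  | [] => True
  | u :: T => Hk R u ∧ u ≠ [] ∧ Ch R T ∧
      ∀ v ∈ T.head?, v.length < u.length ∧ Bd R (v ++ u) u.length

/-- the row above `w` is compatible with the rows `T` (which stand below). -/
def Vh (R : α → α → Prop) (T : List (List α)) (w : List α) : Prop :=
  ∀ v ∈ T.head?, Bd R (v ++ w) w.length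

/-- strict partitions as lists. -/
def St : List ℕ → Prop
  | [] => True
  | n :: l => 0 < n ∧ St l ∧ ∀ m ∈ l.head?, m < n

/-- one more box in row `r`; (new row of length one for `r = length`; a non-strict list, the zero
row, if `r` is larger). -/
def add : List ℕ → ℕ → List ℕ
  | [], 0 => [1]
  | [], _ + 1 => [0]
  | n :: l, 0 => (n + 1) :: l
  | n :: l, r + 1 => n :: add l r

/-- several boxes, in the rows of the list `ρ`. -/
def addL : List ℕ → List ℕ → List ℕ
  | l, [] => l
  | l, r :: ρ => addL (add l r) ρ

/-- all the shapes after the first one are strict. -/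
def Adm : List ℕ → List ℕ → Prop
  | _, [] => True
  | l, r :: ρ => St (add l r) ∧ Adm (add l r) ρ

/-- the relation for paths (an ascent of a path is `r' ≤ r`). -/
def Rp : ℕ → ℕ → Prop := fun r r' => r' ≤ r

open Classical in
/-- lists of length `k` with entries in `S`. -/
noncomputable def listsOver {β : Type*} (S : Finset β) : ℕ → Finset (List β)
  | 0 => {[]}
  | k + 1 => (S ×ˢ listsOver S k).image fun p => p.1 :: p.2

open Classical in
/-- the hook type paths of `k` boxes starting at the strict partition `l`: strictly increasing,
then weakly decreasing row indices, all shapes strict. -/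
noncomputable def HP (l : List ℕ) (k : ℕ) : Finset (List ℕ) :=
  (listsOver (range (l.length + k)) k).filter fun ρ => Hk Rp ρ ∧ Adm l ρ

/-- The Pieri rule (for all row lengths `k`) for a family indexed by strict partitions. -/
def Pie {S : Type*} [Ring S] (Φ : List ℕ → S) : Prop :=
  Φ [] = 1 ∧ ∀ l : List ℕ, St l → ∀ k : ℕ, 1 ≤ k →
    Φ l * Φ [k] = ∑ ρ ∈ HP l k, Φ (addL l ρ)

section Sums

variable [Fintype α] {S : Type*} [Ring S]

open Classical in
/-- lists of rows of the given lengths. -/
noncomputable def shp : List ℕ → Finset (List (List α))
  | [] => {[]}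
  | n :: l => (listsOver univ n ×ˢ shp l).image fun p => p.1 :: p.2

open Classical in
/-- chains of shape `l`. -/
noncomputable def SS (R : α → α → Prop) (l : List ℕ) : Finset (List (List α)) :=
  (shp l).filter fun T => Ch R T

/-- product of a list of rows: the last row of the list acts first. -/
def FT (f : α → S) : List (List α) → S
  | [] => 1
  | u :: T => FT f T * (u.map f).prod

/-- the sum over the chains of shape `l`. -/
noncomputable def MM (R : α → α → Prop) (f : α → S) (l : List ℕ) : S :=
  ∑ T ∈ SS R l, FT f T

open Classical in
/-- the hook words of length `n`. -/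
noncomputable def HW (R : α → α → Prop) (n : ℕ) : Finset (List α) :=
  (listsOver univ n).filter fun w => Hk R w

end Sums

/-- The relations of the letters. The exception in `k2` is the creation letter `a = c`. -/
structure Rels {S : Type*} [Ring S] (R : α → α → Prop) (f : α → S) : Prop where
  k1 : ∀ a b c : α, ¬ R a b → R a c → f a * f b * f c = f a * f c * f b
  k2 : ∀ a b c : α, R a c → ¬ R b c → f a * f b * f c = f b * f a * f c ∨
    (a = c ∧ (∀ e, R a e) ∧ (∀ e, R e a → e = a) ∧ f a * f a = 0)

end Pool.Agent.H71.RW
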