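import Pool.Agent.H71.RW.HkA

/-!
# AlgA: the crossing identity in the ring (170 lines)

COMPLETE PROOF. `u = (D1 ++ y :: D2) ++ (A1 ++ a :: A2)`, `w = (D1 ++ a :: D2) ++ (A1 ++ x :: A2)`. Write `[l]` for
`(l.map f).prod`. TO SHOW `[u] * f x = f y * [w]`.
(α) `f a * [A2] * f x = f a * f x * [A2]`: move `x` to the left over the letters `c` of `A2`: with `b` the
letter before `c` (`b = a` or `b ∈ A2`): `f b * f c * f x = f b * f x * f c` by `k1` (`¬ R b x`, `R b c`), where
`¬ R b x` for `b ∈ A2` because `R a b`, `R b x` would give `R a x`. (Induction on `A2` from the end: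
STATEMENT for the induction: if all letters `b` of the ascending list `b0 :: C` have `¬ R b x` then
`f b0 * [C] * f x = f b0 * f x * [C]`.)
(β) `[A1] * f a * f x = f a * [A1] * f x`: move `a` to the left over the letters of `A1`, starting at the
end: `f b * f a * f c = f a * f b * f c` by `k2` with `c` = the next letter (`x` or a letter of `A1`): `R b c`;
`¬ R a c`: for `c = x` given, for `c ∈ A1` `R c x` and `R a c` would give `R a x`.
THE EXCEPTION in (β): `b = c =: z`, `z` is the smallest letter (`R z e` for all `e`; `R e z` implies
`e = z`) and `f z * f z = 0`. Then `[u] * f x = 0` and `f y * [w] = 0`: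
 all letters of `A1` up to this `b` have `R` to `z` or are `z`, so they are `z`.
 If `z` stands twice in `A1`, the two places are neighbours, `[A1] = 0`: both sides are `0`.
 Otherwise `c = x = z`, `b = z` is the last letter of `A1` and `A1 = [z]` (its other letters would be
 `z`). `[w]` contains `f z * f x = f z * f z = 0`. Left side: by (α) it is
 `[D1 ++ y :: D2] * f z * f a * f z * [A2]`. Let `e` be the last letter of `D := D1 ++ y :: D2`. `R e a` (`e = y`
 or `e ∈ D2`, where `¬ R y e`, `¬ R e a` would give `¬ R y a`). If `e = z`: `f e * f z = 0`. Otherwise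
 `¬ R e z`, and `k1` for `(e, z, a)` gives `f e * f z * f a = f e * f a * f z`, so the product contains
 `f e * f a * f z * f z = 0`. (For `k1`: `¬ R e z`, `R e a`.)
So (if not both sides are `0`) `[A1 ++ a :: A2] * f x = f a * [A1 ++ x :: A2]`.
(γ) `f y * [D2] * f a = f y * f a * [D2]`: move `a` to the left over the letters `e` of `D2`: with `b` the
letter before `e` (`y` or in `D2`): `f b * f e * f a = f b * f a * f e` by `k1` (`¬ R b e`, `R b a`).
(δ) `[D1] * f y * f a = f y * [D1] * f a`: move `y` to the left over the letters `e` of `D1` from the end,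
`c` = the next letter (`a` or in `D1`): `f y * f e * f c = f e * f y * f c` is `k2` for `(y, e, c)`: `R y c`
(for `c = a` given; for `c ∈ D1`: `¬ R y c`, `¬ R c a` would give `¬ R y a`) and `¬ R e c`. The exception
of `k2` (`y = c` smallest) does not occur: for `c = a`: `a` would be smallest, but `¬ R a x`; for
`c ∈ D1`: `c` smallest, but `¬ R c a`.
Together `[D] * f a = f y * [D1 ++ a :: D2]`, so `[u] * f x = [D] * f a * [A1 ++ x :: A2] = f y * [w]`.
(`cr_prod` only needs the data of `Cr`.)
`ins_prod`: induction on the insertion; bump: `FT f T * [u] * f x = FT f T * f y * [w] = FT f T' * [w]`.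
-/

set_option autoImplicit false

namespace Pool.Agent.H71.RW

variable {α : Type*} {R : α → α → Prop} {S : Type*} [Ring S]

theorem cr_prod (h : Sup R) {f : α → S} (hf : Rels R f) {u w : List α} {x y : α}
    (hc : Cr R u x y w) : (u.map f).prod * f x = f y * (w.map f).prod := by
  sorry

theorem ins_prod (h : Sup R) {f : α → S} (hf : Rels R f) {T T' : List (List α)} {x : α} {r : ℕ}
    (hi : Ins R T x T' r) : FT f T * f x = FT f T' := by
  sorry

end Pool.Agent.H71.RW
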