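import Pool.Agent.H71.RW.SumA

/-!
# CmA: where hook type paths end (140 lines)

NOTATION: `ext μ j := if j = 0 then μ else μ ++ [j]`, `n := l.length`.
COMPLETE PROOFS.
* `add_len` (`r < μ.length`): `add μ r` has the same length; `add (ext μ j) r = ext (add μ r) j` for
  `r < μ.length`; `add (ext μ j) μ.length = ext μ (j + 1)` (`j = 0`: `add μ μ.length = μ ++ [1]`); by
  induction on `μ`.
* `add_big`: if `μ.length < r` then `add μ r` is not strict (it ends with `0`); if `r = μ.length + 1` and
  `μ' = μ ++ [1]`: `add μ' r = μ ++ [1, 1]` is not strict. So: `μ.length < r`, `j ≤ 1` imply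
  `¬ St (add (ext μ j) r)`.
* `run`: STATEMENT: `μ.length = n`, `Adm (ext μ j) ρ`, `Hk Rp (List.replicate j n ++ ρ)`. Then there are
  `μ'` with `μ'.length = n`, `addL (ext μ j) ρ = ext μ' (j + c)`, `c = ρ.count n`, and `c = ρ.length` implies
  `μ' = μ`; moreover all entries of `ρ` are `≤ n`. PROOF by induction on `ρ` (for all `μ, j`).
  `ρ = r :: ρ'`. `r < n`: the new state is `ext (add μ r) j`; `List.replicate j n ++ ρ'` is a sublist,
  `hk_sub`; `c` does not change and `c ≤ ρ'.length < ρ.length`, so the last implication is void.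
  `r = n`: the new state is `ext μ (j + 1)`, `List.replicate j n ++ n :: ρ' = List.replicate (j+1) n ++ ρ'`.
  `r > n`: if `j ≥ 2`: `[n, n, r]` is a sublist of a hook word for `Rp`, but `Rp n n` and `¬ Rp n r`:
  contradiction (`hk_three`, `sup` of `Rp`); if `j ≤ 1`: `add_big` contradicts `Adm`.
* `hp_end`: `run` with `j = 0`, `μ = l`: `addL l ρ = ext μ' c`, `c ≤ ρ.length = k`; `c = 0`: length `n`;
  otherwise it is `μ' ++ [c]`, `c < k` or `c = k`, and then `μ' = l` and `ρ = List.replicate k n`
  (`List.count_eq_length`, `List.eq_replicate_iff`).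
* `hp_const`: `St (l ++ [k])`, `1 ≤ k`: `St (l ++ [j])` for `1 ≤ j ≤ k` (and `St l`), so `Adm`; constant lists are ascending for
  `Rp`; the entries `n < n + k`.
* `hp_st`: the last shape of an admissible nonempty path is strict.
-/

set_option autoImplicit false

open Finset

namespace Pool.Agent.H71.RW

private def CmA_ext (μ : List ℕ) (j : ℕ) : List ℕ := if j = 0 then μ else μ ++ [j]

private theorem CmA_ext_zero (μ : List ℕ) : CmA_ext μ 0 = μ := if_pos rfl

private theorem CmA_ext_succ (μ : List ℕ) (j : ℕ) : CmA_ext μ (j + 1) = μ ++ [j + 1] :=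
  if_neg (Nat.succ_ne_zero j)

private theorem CmA_len (μ : List ℕ) : ∀ r, r < μ.length → (add μ r).length = μ.length := by
  induction μ with
  | nil => intro r hr; simp at hr
  | cons n l ih =>
    intro r hr
    cases r with
    | zero => rfl
    | succ r =>
      have h1 : r < l.length := by simpa using hr
      change (n :: add l r).length = (n :: l).length
      rw [List.length_cons, List.length_cons, ih r h1]

private theorem CmA_app (μ s : List ℕ) : ∀ r, r < μ.length → add (μ ++ s) r = add μ r ++ s := by
  induction μ with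
  | nil => intro r hr; simp at hr
  | cons n l ih =>
    intro r hr
    cases r with
    | zero => rfl
    | succ r =>
      have h1 : r < l.length := by simpa using hr
      change n :: add (l ++ s) r = n :: add l r ++ s
      rw [ih r h1]
      rfl

private theorem CmA_at (μ : List ℕ) (j : ℕ) : add (μ ++ [j]) μ.length = μ ++ [j + 1] := by
  induction μ with
  | nil => rfl
  | cons n l ih =>
    change n :: add (l ++ [j]) l.length = n :: (l ++ [j + 1])
    rw [ih]

private theorem CmA_endd (μ : List ℕ) : add μ μ.length = μ ++ [1] := by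
  induction μ with
  | nil => rfl
  | cons n l ih =>
    change n :: add l l.length = n :: (l ++ [1])
    rw [ih]

private theorem CmA_lt (μ : List ℕ) (j : ℕ) {r : ℕ} (hr : r < μ.length) :
    add (CmA_ext μ j) r = CmA_ext (add μ r) j := by
  cases j with
  | zero => rw [CmA_ext_zero, CmA_ext_zero]
  | succ j => rw [CmA_ext_succ, CmA_ext_succ, CmA_app μ _ r hr]

private theorem CmA_eq (μ : List ℕ) (j : ℕ) :
    add (CmA_ext μ j) μ.length = CmA_ext μ (j + 1) := by
  cases j with
  | zero => rw [CmA_ext_zero, CmA_endd, CmA_ext_succ]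
  | succ j => rw [CmA_ext_succ, CmA_ext_succ, CmA_at]

private theorem CmA_big (μ : List ℕ) : ∀ r, μ.length < r → ¬ St (add μ r) := by
  induction μ with
  | nil =>
    intro r hr h
    cases r with
    | zero => simp at hr
    | succ r =>
      have h1 : St [0] := h
      exact lt_irrefl 0 h1.1
  | cons n l ih =>
    intro r hr h
    cases r with
    | zero => simp at hr
    | succ r =>
      have h1 : St (n :: add l r) := h
      exact ih r (by simpa using hr) h1.2.1

private theorem CmA_right (a b : List ℕ) (h : St (a ++ b)) : St b := by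
  induction a with
  | nil => exact h
  | cons n l ih =>
    have h1 : St (n :: (l ++ b)) := h
    exact ih h1.2.1

private theorem CmA_sup : Sup Rp where
  tr := by
    intro a b c h1 h2
    unfold Rp at *
    omega
  nt := by
    intro a b c h1 h2
    unfold Rp at *
    omega

private theorem CmA_run (n : ℕ) (ρ : List ℕ) : ∀ (μ : List ℕ) (j : ℕ), μ.length = n →
    Adm (CmA_ext μ j) ρ → Hk Rp (List.replicate j n ++ ρ) →
    ∃ μ' : List ℕ, μ'.length = n ∧ addL (CmA_ext μ j) ρ = CmA_ext μ' (j + ρ.count n) := by
  induction ρ with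
  | nil =>
    intro μ j hμ _ _
    exact ⟨μ, hμ, rfl⟩
  | cons r ρ ih =>
    intro μ j hμ hA hH
    have hA' : St (add (CmA_ext μ j) r) ∧ Adm (add (CmA_ext μ j) r) ρ := hA
    obtain ⟨hS, hA2⟩ := hA'
    rcases lt_trichotomy r n with h | h | h
    · have e1 : add (CmA_ext μ j) r = CmA_ext (add μ r) j := CmA_lt μ j (by omega)
      rw [e1] at hA2
      have h2 : Hk Rp (List.replicate j n ++ ρ) :=
        hk_sub (List.Sublist.append (List.Sublist.refl _) (List.sublist_cons_self r ρ)) hH
      obtain ⟨μ', h3, h4⟩ := ih (add μ r) j (by rw [CmA_len μ r (by omega), hμ]) hA2 h2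
      refine ⟨μ', h3, ?_⟩
      change addL (add (CmA_ext μ j) r) ρ = _
      rw [e1, h4, List.count_cons_of_ne (by omega)]
    · subst h
      have e1 : add (CmA_ext μ j) r = CmA_ext μ (j + 1) := by
        rw [← hμ]
        exact CmA_eq μ j
      rw [e1] at hA2
      have h2 : Hk Rp (List.replicate (j + 1) r ++ ρ) := by
        rw [List.replicate_succ', List.append_assoc]
        exact hH
      obtain ⟨μ', h3, h4⟩ := ih μ (j + 1) hμ hA2 h2
      refine ⟨μ', h3, ?_⟩
      change addL (add (CmA_ext μ j) r) ρ = _
      rw [e1, h4, List.count_cons_self]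
      congr 1
      omega
    · exfalso
      match j, hS, hH with
      | 0, hS, _ =>
        rw [CmA_ext_zero] at hS
        exact CmA_big μ r (by omega) hS
      | 1, hS, _ =>
        rw [CmA_ext_succ] at hS
        rcases Nat.lt_or_ge (n + 1) r with h5 | h5
        · exact CmA_big _ r (by rw [List.length_append]; simp; omega) hS
        · have h6 : r = (μ ++ [0 + 1]).length := by
            rw [List.length_append]
            simp
            omega
          rw [h6, CmA_endd, List.append_assoc] at hS
          have h7 : St [0 + 1, 1] := CmA_right _ _ hS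
          have h8 := h7.2.2 1 rfl
          exact lt_irrefl _ h8
      | j + 2, _, hH =>
        have h5 : [n, n, r].Sublist (List.replicate (j + 2) n ++ r :: ρ) := by
          have h6 : [n, n].Sublist (List.replicate (j + 2) n) := by
            rw [List.replicate_succ, List.replicate_succ]
            exact List.Sublist.cons_cons n (List.Sublist.cons_cons n (List.nil_sublist _))
          have h7 : [r].Sublist (r :: ρ) := List.Sublist.cons_cons r (List.nil_sublist _)
          exact List.Sublist.append h6 h7
        have h8 := (hk_three CmA_sup n n r).1 (hk_sub h5 hH)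
        apply h8
        unfold Rp
        omega

private theorem CmA_mem {l : List ℕ} {k : ℕ} {ρ : List ℕ} : ρ ∈ HP l k ↔
    (ρ.length = k ∧ ∀ a ∈ ρ, a < l.length + k) ∧ Hk Rp ρ ∧ Adm l ρ := by
  classical
  unfold HP
  rw [mem_filter, mem_listsOver]
  simp only [mem_range]

private theorem CmA_mono (l : List ℕ) {m m' : ℕ} (h1 : 1 ≤ m') (h2 : m' ≤ m)
    (h : St (l ++ [m])) : St (l ++ [m']) := by
  induction l with
  | nil =>
    refine ⟨h1, trivial, ?_⟩
    intro x hx
    simp at hx
  | cons n l ih =>
    have h3 : St (n :: (l ++ [m])) := h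
    obtain ⟨a, b, c⟩ := h3
    refine ⟨a, ih b, ?_⟩
    intro x hx
    cases l with
    | nil =>
      have h4 : m < n := c m rfl
      have h5 : x = m' := by
        simp at hx
        exact hx.symm
      omega
    | cons y l => exact c x hx

private theorem CmA_rep (l : List ℕ) (i : ℕ) : ∀ j, 1 ≤ j + i → St (l ++ [j + i]) →
    Adm (CmA_ext l j) (List.replicate i l.length) ∧
      addL (CmA_ext l j) (List.replicate i l.length) = CmA_ext l (j + i) := by
  induction i with
  | zero =>
    intro j _ _
    exact ⟨trivial, rfl⟩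
  | succ i ih =>
    intro j h1 h2
    have e1 := CmA_eq l j
    have h3 : St (l ++ [j + 1 + i]) := by
      rw [show j + 1 + i = j + (i + 1) by omega]
      exact h2
    obtain ⟨h4, h5⟩ := ih (j + 1) (by omega) h3
    have h6 : St (CmA_ext l (j + 1)) := by
      rw [CmA_ext_succ]
      exact CmA_mono l (by omega) (by omega) h2
    rw [List.replicate_succ]
    constructor
    · change St (add (CmA_ext l j) l.length) ∧ Adm (add (CmA_ext l j) l.length) _
      rw [e1]
      exact ⟨h6, h4⟩
    · change addL (add (CmA_ext l j) l.length) _ = _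
      rw [e1, h5]
      congr 1
      omega

private theorem CmA_last (ρ : List ℕ) : ∀ l, Adm l ρ → (St l ∨ ρ ≠ []) → St (addL l ρ) := by
  induction ρ with
  | nil =>
    intro l _ h
    exact h.resolve_right (fun h => h rfl)
  | cons r ρ ih =>
    intro l hA _
    have hA' : St (add l r) ∧ Adm (add l r) ρ := hA
    exact ih (add l r) hA'.2 (Or.inl hA'.1)

theorem hp_end {l : List ℕ} {k : ℕ} {ρ : List ℕ} (hρ : ρ ∈ HP l k) :
    (addL l ρ).length ≤ l.length ∨
      ∃ μ j, μ.length = l.length ∧ addL l ρ = μ ++ [j] ∧ 1 ≤ j ∧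
        (j < k ∨ ρ = List.replicate k l.length) := by
  obtain ⟨⟨hk, -⟩, hH, hA⟩ := CmA_mem.1 hρ
  obtain ⟨μ, h1, h2⟩ := CmA_run l.length ρ l 0 rfl (by rw [CmA_ext_zero]; exact hA)
    (by rw [List.replicate_zero, List.nil_append]; exact hH)
  rw [CmA_ext_zero, zero_add] at h2
  rcases Nat.eq_zero_or_pos (ρ.count l.length) with h3 | h3
  · left
    rw [h2, h3, CmA_ext_zero, h1]
  · right
    obtain ⟨c, hc⟩ : ∃ c, ρ.count l.length = c + 1 := ⟨ρ.count l.length - 1, by omega⟩
    refine ⟨μ, c + 1, h1, ?_, by omega, ?_⟩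
    · rw [h2, hc, CmA_ext_succ]
    · have h4 : ρ.count l.length ≤ ρ.length := List.count_le_length
      rcases Nat.lt_or_ge (c + 1) k with h5 | h5
      · exact Or.inl h5
      · right
        have h6 : ρ.count l.length = ρ.length := by omega
        rw [List.eq_replicate_iff]
        refine ⟨hk, fun b hb => ?_⟩
        exact (List.count_eq_length.1 h6 b hb).symm

theorem hp_const {l : List ℕ} {k : ℕ} (hk : 1 ≤ k) (hl : St (l ++ [k])) :
    List.replicate k l.length ∈ HP l k ∧ addL l (List.replicate k l.length) = l ++ [k] := by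
  obtain ⟨h1, h2⟩ := CmA_rep l k 0 (by omega) (by rw [zero_add]; exact hl)
  rw [CmA_ext_zero] at h1 h2
  constructor
  · rw [CmA_mem]
    refine ⟨⟨List.length_replicate, ?_⟩, ⟨[], List.replicate k l.length, rfl, List.Pairwise.nil, ?_⟩, h1⟩
    · intro a ha
      rw [List.eq_of_mem_replicate ha]
      omega
    · unfold AL
      rw [List.pairwise_replicate]
      right
      exact le_refl l.length
  · rw [h2, zero_add]
    obtain ⟨c, hc⟩ : ∃ c, k = c + 1 := ⟨k - 1, by omega⟩
    rw [hc, CmA_ext_succ]

theorem hp_st {l : List ℕ} {k : ℕ} (hk : 1 ≤ k) {ρ : List ℕ} (hρ : ρ ∈ HP l k) :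
    St (addL l ρ) := by
  obtain ⟨⟨h1, -⟩, -, hA⟩ := CmA_mem.1 hρ
  refine CmA_last ρ l hA (Or.inr ?_)
  rintro rfl
  simp at h1
  omega

theorem st_snoc {l : List ℕ} {k : ℕ} (hl : St (l ++ [k])) : St l ∧ 1 ≤ k := by
  induction l with
  | nil =>
    have h1 : St [k] := hl
    exact ⟨trivial, h1.1⟩
  | cons n l ih =>
    have h1 : St (n :: (l ++ [k])) := hl
    obtain ⟨a, b, c⟩ := h1
    obtain ⟨h2, h3⟩ := ih b
    refine ⟨⟨a, h2, ?_⟩, h3⟩
    intro m hm
    cases l with
    | nil => simp at hm
    | cons y l => exact c m hm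

end Pool.Agent.H71.RW
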