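import Pool.Agent.H71.RW.CmA

/-!
# Uni: a Pieri family is determined by its one row members (90 lines)

COMPLETE PROOFS.
`pie_mem`: induction on the length of the list, `N`: CLAIM(N): all strict `l` with `l.length ≤ N` have
`Φ l ∈ B`. `N = 0`: `Φ [] = 1`. Step: let `l.length = N + 1`, `l = μ ++ [k]` (last entry), strong
induction on `k` (for all `μ` of length `N`). `st_snoc`: `St μ`, `1 ≤ k`. Pieri:
`Φ μ * Φ [k] = ∑ ρ ∈ HP μ k, Φ (addL μ ρ)`; the term `ρ = List.replicate k N` is `Φ (μ ++ [k])`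
(`hp_const`; `Finset.add_sum_erase`); every other term is in `B`: by `hp_end` its list is strict
(`hp_st`) and has length `≤ N` (CLAIM(N)) or is `μ' ++ [j]` with `j < k`, `μ'.length = N` (induction on `k`).
`Φ μ ∈ B` by CLAIM(N), `Φ [k] ∈ B` given. So `Φ (μ ++ [k])` = product − sum is in `B`.
`pie_comm`: `B := Subring.centralizer {X}`.
`pie_eq`: in the ring `S × S` the family `fun l => (Φ l, Ψ l)` satisfies `Pie` (componentwise,
`Prod.ext`, `Prod.fst_sum`, `Prod.snd_sum`); `B := {p | p.1 = p.2}` (a subring; equalizer of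
`RingHom.fst` and `RingHom.snd`: `RingHom.eqLocus`).
-/

set_option autoImplicit false

open Finset

namespace Pool.Agent.H71.RW

variable {S : Type*} [Ring S]

theorem pie_mem {Φ : List ℕ → S} (hP : Pie Φ) (B : Subring S)
    (h1 : ∀ k, 1 ≤ k → Φ [k] ∈ B) {l : List ℕ} (hl : St l) : Φ l ∈ B := by
  sorry

theorem pie_comm {Φ : List ℕ → S} (hP : Pie Φ) (X : S)
    (h1 : ∀ k, 1 ≤ k → Φ [k] * X = X * Φ [k]) {l : List ℕ} (hl : St l) :
    Φ l * X = X * Φ l := by
  sorry

theorem pie_eq {Φ Ψ : List ℕ → S} (hP : Pie Φ) (hQ : Pie Ψ)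
    (h1 : ∀ k, 1 ≤ k → Φ [k] = Ψ [k]) {l : List ℕ} (hl : St l) : Φ l = Ψ l := by
  sorry

end Pool.Agent.H71.RW
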