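import Pool.Agent.H71.RW.PieM
import Pool.Agent.H71.RW.Uni

/-!
# ComA: the sums over chains commute with the sum of the letters (110 lines)

COMPLETE PROOFS. `D := ∑ x, f x`, `[w] := (w.map f).prod`, `n ≥ 1`, `MM R f [n] = ∑ w ∈ HW R n, [w]`
(`MM_one`).
`sum_cross`: both sides are sums over pairs; `Finset.sum_bij'`-type argument: pairs `(u, x)`,
`u ∈ HW R n`, `u ++ [x]` no hook word; `cr_ex` gives `(y, w)`, unique (`cr_uniq`), `w ∈ HW R n`
(`Cr.hkw`, `Cr.len`), `y :: w` no hook word (`Cr.nw`); injective by `cr_uniq'`, surjective by `cr_ex'`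
(`Cr.hku`, `Cr.nu`); values by `hΨ`.
`row_comm`: `MM R f [n] * D = ∑ u ∈ HW R n, ∑ x, [u] * f x`; the terms with `u ++ [x]` a hook word give
`∑ W ∈ HW R (n+1), [W]` (bijection `(u, x) ↦ u ++ [x]`; `W = u ++ [x]`, `u` is a hook word by
`hk_sub`); in the same way `D * MM R f [n] = ∑ w, ∑ y, f y * [w]` and the terms with `y :: w` a hook
word give the same sum. The other terms agree by `sum_cross` and `cr_prod`.
`mm_comm`: `pie_comm` with `pie_MM`.
-/

set_option autoImplicit false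

open Finset

namespace Pool.Agent.H71.RW

variable {α : Type*} {R : α → α → Prop}

open Classical in
theorem sum_cross (h : Sup R) [Fintype α] {M : Type*} [AddCommMonoid M] (n : ℕ)
    (Ψ : List α → α → M) (Θ : α → List α → M)
    (hΨ : ∀ u x y w, Cr R u x y w → Ψ u x = Θ y w) :
    ∑ u ∈ HW R n, ∑ x ∈ univ.filter (fun x => ¬ Hk R (u ++ [x])), Ψ u x
      = ∑ w ∈ HW R n, ∑ y ∈ univ.filter (fun y => ¬ Hk R (y :: w)), Θ y w := by
  sorry

theorem row_comm (h : Sup R) [Fintype α] {S : Type*} [Ring S] {f : α → S} (hf : Rels R f)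
    {n : ℕ} (hn : 1 ≤ n) : MM R f [n] * (∑ x, f x) = (∑ x, f x) * MM R f [n] := by
  sorry

theorem mm_comm (h : Sup R) [Fintype α] {S : Type*} [Ring S] {f : α → S} (hf : Rels R f)
    {l : List ℕ} (hl : St l) : MM R f l * (∑ x, f x) = (∑ x, f x) * MM R f l :=
  pie_comm (pie_MM h hf) _ (fun _ hk => row_comm h hf hk) hl

end Pool.Agent.H71.RW
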