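import Pool.Agent.H71.RW.HkA

/-!
# CrA: the crossing, basic facts (80 lines)

COMPLETE PROOFS. `hc : Cr R u x y w` gives `D1, D2, A1, A2, a` with
`u = (D1 ++ y :: D2) ++ (A1 ++ a :: A2)`, `w = (D1 ++ a :: D2) ++ (A1 ++ x :: A2)`.
* `len`: counting. `hku`: by definition.
* `hkw`: `D1 ++ a :: D2` is descending: `¬ R e a` for `e ∈ D1` is given; for `e ∈ D2`: `R a e` and
  `R y a` would give `R y e`, but `¬ R y e`. `A1 ++ x :: A2` is ascending: `R b x` is given for
  `b ∈ A1`; for `c ∈ A2`: `R a c`; `¬ R x c` and `¬ R a x` would give `¬ R a c` (`h.nt`).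
* `nu`: `[y, a, x]` is a sublist of `u ++ [x]`, it is no hook word by `hk_three`; `hk_sub`.
* `nw`: `[y, a, x]` is a sublist of `y :: w`.
* `aft`: (letters of `D2`) `¬ R y e` and `R y a`; if `¬ R e a` then `¬ R y a` by `h.nt`.
* `cr_ex`: `hk_nf` gives `u = D ++ A`. Not all `a ∈ A` have `R a x` (otherwise `A ++ [x]` is
  ascending and `u ++ [x]` is a hook word): `fst_split` for `p a := ¬ R a x` gives
  `A = A1 ++ a :: A2` with `R b x` for `b ∈ A1`. The normal form gives `d ∈ D` with `R d a`;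
  `fst_split` for `p d := R d a` gives `D = D1 ++ y :: D2`.
-/

set_option autoImplicit false

namespace Pool.Agent.H71.RW

variable {α : Type*} {R : α → α → Prop}

theorem Cr.len {u w : List α} {x y : α} (hc : Cr R u x y w) : w.length = u.length := by
  obtain ⟨D1, D2, A1, A2, a, hu, hw, -⟩ := hc
  rw [hu, hw]
  simp only [List.length_append, List.length_cons]

theorem Cr.hku {u w : List α} {x y : α} (hc : Cr R u x y w) : Hk R u := by
  obtain ⟨D1, D2, A1, A2, a, hu, hw, hD, hA, -⟩ := hc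
  exact ⟨_, _, hu, hD, hA⟩

/-- the two parts of the new row. -/
theorem CrA_new (h : Sup R) {D1 D2 A1 A2 : List α} {a x y : α} (hD : DL R (D1 ++ y :: D2))
    (hA : AL R (A1 ++ a :: A2)) (hb : ∀ b ∈ A1, R b x) (hax : ¬ R a x) (he : ∀ e ∈ D1, ¬ R e a)
    (hya : R y a) : DL R (D1 ++ a :: D2) ∧ AL R (A1 ++ x :: A2) := by
  obtain ⟨d1, d2, d3⟩ := List.pairwise_append.1 hD
  obtain ⟨d4, d5⟩ := List.pairwise_cons.1 d2
  obtain ⟨a1, a2, a3⟩ := List.pairwise_append.1 hA
  obtain ⟨a4, a5⟩ := List.pairwise_cons.1 a2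
  constructor
  · refine List.pairwise_append.2 ⟨d1, List.pairwise_cons.2 ⟨fun e hee hr => ?_, d5⟩, ?_⟩
    · exact d4 e hee (h.tr y a e hya hr)
    · intro e hee f hf
      rcases List.mem_cons.1 hf with rfl | hf
      · exact he e hee
      · exact d3 e hee f (List.mem_cons_of_mem _ hf)
  · refine List.pairwise_append.2 ⟨a1, List.pairwise_cons.2 ⟨fun c hcc => ?_, a5⟩, ?_⟩
    · by_contra hxc
      exact h.nt a x c hax hxc (a4 c hcc)
    · intro e hee f hf
      rcases List.mem_cons.1 hf with rfl | hf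
      · exact hb e hee
      · exact a3 e hee f (List.mem_cons_of_mem _ hf)

theorem Cr.hkw (h : Sup R) {u w : List α} {x y : α} (hc : Cr R u x y w) : Hk R w := by
  obtain ⟨D1, D2, A1, A2, a, hu, hw, hD, hA, hb, hax, he, hya⟩ := hc
  obtain ⟨h1, h2⟩ := CrA_new h hD hA hb hax he hya
  exact ⟨_, _, hw, h1, h2⟩

theorem Cr.nu (h : Sup R) {u w : List α} {x y : α} (hc : Cr R u x y w) : ¬ Hk R (u ++ [x]) := by
  obtain ⟨D1, D2, A1, A2, a, hu, hw, hD, hA, hb, hax, he, hya⟩ := hc
  intro hk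
  have h1 : [y].Sublist (D1 ++ y :: D2) := List.singleton_sublist.2 (by simp)
  have h2 : [a].Sublist (A1 ++ a :: A2) := List.singleton_sublist.2 (by simp)
  have h3 : [y, a, x].Sublist (u ++ [x]) := by
    rw [hu]
    exact (h1.append h2).append (List.Sublist.refl [x])
  exact (hk_three h y a x).1 (hk_sub h3 hk) ⟨hya, hax⟩

theorem Cr.nw (h : Sup R) {u w : List α} {x y : α} (hc : Cr R u x y w) : ¬ Hk R (y :: w) := by
  obtain ⟨D1, D2, A1, A2, a, hu, hw, hD, hA, hb, hax, he, hya⟩ := hc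
  intro hk
  have h1 : [a].Sublist (D1 ++ a :: D2) := List.singleton_sublist.2 (by simp)
  have h2 : [x].Sublist (A1 ++ x :: A2) := List.singleton_sublist.2 (by simp)
  have h3 : [y, a, x].Sublist (y :: w) := by
    rw [hw]
    exact (h1.append h2).cons_cons y
  exact (hk_three h y a x).1 (hk_sub h3 hk) ⟨hya, hax⟩

theorem Cr.ne {u w : List α} {x y : α} (hc : Cr R u x y w) : u ≠ [] ∧ w ≠ [] := by
  obtain ⟨D1, D2, A1, A2, a, hu, hw, -⟩ := hc
  rw [hu, hw]
  constructor <;> simp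

/-- the inserted letter is a letter of the new row. -/
theorem Cr.mem {u w : List α} {x y : α} (hc : Cr R u x y w) : x ∈ w ∧ y ∈ u := by
  obtain ⟨D1, D2, A1, A2, a, hu, hw, -⟩ := hc
  rw [hu, hw]
  constructor <;> simp

/-- if `b` is the last letter of the new row then `x = b` or `R x b`. -/
theorem Cr.last (h : Sup R) {u w w' : List α} {x y b : α} (hc : Cr R u x y w)
    (hw : w = w' ++ [b]) : x = b ∨ R x b := by
  obtain ⟨D1, D2, A1, A2, a, hu, hw2, hD, hA, hb, hax, he, hya⟩ := hc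
  obtain ⟨h1, h2⟩ := CrA_new h hD hA hb hax he hya
  rcases List.eq_nil_or_concat A2 with h3 | ⟨L, c, h3⟩
  · left
    rw [h3, ← List.append_assoc, hw] at hw2
    have h4 := (List.append_inj' hw2 rfl).2
    exact (List.singleton_inj.1 h4).symm
  · right
    have h5 : w' ++ [b] = ((D1 ++ a :: D2) ++ (A1 ++ x :: L)) ++ [c] := by
      rw [← hw, hw2, h3]
      simp
    have h4 := (List.append_inj' h5 rfl).2
    have h6 : b = c := List.singleton_inj.1 h4
    have h7 := (List.pairwise_cons.1 (List.pairwise_append.1 h2).2.1).1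
    rw [h6]
    exact h7 c (by rw [h3]; simp)

theorem cr_ex (h : Sup R) {u : List α} {x : α} (hu : Hk R u) (hux : ¬ Hk R (u ++ [x])) :
    ∃ y w, Cr R u x y w := by
  obtain ⟨D, A, hu', hD, hA, hn⟩ := hk_nf h hu
  have h1 : ∃ a ∈ A, ¬ R a x := by
    by_contra hcon
    apply hux
    refine ⟨D, A ++ [x], by rw [hu', List.append_assoc], hD, ?_⟩
    refine List.pairwise_append.2 ⟨hA, List.pairwise_singleton _ _, ?_⟩
    intro b hb f hf
    rw [List.mem_singleton.1 hf]
    by_contra hbx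
    exact hcon ⟨b, hb, hbx⟩
  obtain ⟨A1, a, A2, hA', hax, hb⟩ := fst_split (fun a => ¬ R a x) h1
  have h2 : ∃ d ∈ D, R d a := hn a (by rw [hA']; simp)
  obtain ⟨D1, y, D2, hD', hya, he⟩ := fst_split (fun d => R d a) h2
  refine ⟨y, (D1 ++ a :: D2) ++ (A1 ++ x :: A2), D1, D2, A1, A2, a, ?_, rfl, ?_, ?_, ?_, hax,
    he, hya⟩
  · rw [hu', hD', hA']
  · rw [← hD']
    exact hD
  · rw [← hA']
    exact hA
  · intro b hbb
    exact not_not.1 (hb b hbb)

end Pool.Agent.H71.RW
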