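import Pool.Agent.H71.RW.CrU

/-!
# CrR: reversal (100 lines)

COMPLETE PROOFS. `Rv R a b := ¬ R b a`.
* `Sup.rv`: `tr` for `Rv R` is `h.nt` with the letters in reversed order, `nt` for `Rv R` is `h.tr`
  (`not_not`).
* `hk_rev`: `w = D ++ A` gives `w.reverse = A.reverse ++ D.reverse`; `A.reverse` is descending for
  `Rv R` (`¬ Rv R a b ↔ R b a`), `D.reverse` is ascending for `Rv R` (`List.pairwise_reverse`).
  The other direction: the same for `Rv R`, because `Rv (Rv R) = R` (`rv_rv`, `funext`, `not_not`)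
  and `reverse_reverse`.
* `bd_rev`: sublists of `w.reverse` are the reverses of the sublists of `w`.
* `Cr.rev`: `w.reverse = (A2.reverse ++ x :: A1.reverse) ++ (D2.reverse ++ a :: D1.reverse)` and
  `u.reverse = (A2.reverse ++ a :: A1.reverse) ++ (D2.reverse ++ y :: D1.reverse)`. These are the
  data of a crossing for `Rv R`: `A2.reverse ++ x :: A1.reverse` is descending for `Rv R` because
  `A1 ++ x :: A2` is ascending (proof as in `Cr.hkw`), `D2.reverse ++ a :: D1.reverse` is ascending
  for `Rv R` because `D1 ++ a :: D2` is descending; for `b ∈ D2.reverse`: `Rv R b y` = `¬ R y b`;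
  `¬ Rv R a y` = `R y a`; for `e ∈ A2.reverse`: `¬ Rv R e a` = `R a e`; `Rv R x a` = `¬ R a x`.
* `cr_rev`: `Cr.rev` twice (`rv_rv`).
* `cr_ex'`: `w.reverse` is a hook word for `Rv R` and `w.reverse ++ [y] = (y :: w).reverse` is not;
  `cr_ex` for `Rv R`, then `cr_rev`. `cr_uniq'`: `cr_uniq` for `Rv R`.
-/

set_option autoImplicit false

namespace Pool.Agent.H71.RW

variable {α : Type*} {R : α → α → Prop}

theorem Sup.rv (h : Sup R) : Sup (Rv R) where
  tr := fun a b c hab hbc => h.nt c b a hbc hab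
  nt := fun a b c hab hbc => by
    have h1 : R b a := not_not.1 hab
    have h2 : R c b := not_not.1 hbc
    exact not_not.2 (h.tr c b a h2 h1)

theorem rv_rv (R : α → α → Prop) : Rv (Rv R) = R := by
  funext a b
  show (¬ ¬ R a b) = R a b
  exact propext not_not

private theorem CrR_dl {l : List α} (hl : AL R l) : DL (Rv R) l.reverse := by
  unfold DL
  rw [List.pairwise_reverse]
  refine List.Pairwise.imp ?_ hl
  intro a b hab
  exact not_not.2 hab

private theorem CrR_al {l : List α} (hl : DL R l) : AL (Rv R) l.reverse := by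
  unfold AL
  rw [List.pairwise_reverse]
  exact hl

private theorem CrR_hk {w : List α} (hw : Hk R w) : Hk (Rv R) w.reverse := by
  obtain ⟨D, A, rfl, hD, hA⟩ := hw
  exact ⟨A.reverse, D.reverse, by rw [List.reverse_append], CrR_dl hA, CrR_al hD⟩

theorem hk_rev (w : List α) : Hk (Rv R) w.reverse ↔ Hk R w := by
  constructor
  · intro hw
    have h1 := CrR_hk hw
    rwa [List.reverse_reverse, rv_rv] at h1
  · exact CrR_hk

private theorem CrR_bd {w : List α} {k : ℕ} (hw : Bd R w k) : Bd (Rv R) w.reverse k := by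
  intro s hs hk
  have h1 : s.reverse.Sublist w := by
    have h2 := hs.reverse
    rwa [List.reverse_reverse] at h2
  have h2 : Hk R s.reverse := by
    rw [← hk_rev, List.reverse_reverse]
    exact hk
  have h3 := hw _ h1 h2
  rwa [List.length_reverse] at h3

theorem bd_rev (w : List α) (k : ℕ) : Bd (Rv R) w.reverse k ↔ Bd R w k := by
  constructor
  · intro hw
    have h1 := CrR_bd hw
    rwa [List.reverse_reverse, rv_rv] at h1
  · exact CrR_bd

private theorem CrR_cr (h : Sup R) {u w : List α} {x y : α} (hc : Cr R u x y w) :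
    Cr (Rv R) w.reverse y x u.reverse := by
  obtain ⟨D1, D2, A1, A2, a, rfl, rfl, hD, hA, hb, hax, he, hya⟩ := hc
  unfold DL at hD
  unfold AL at hA
  rw [List.pairwise_append, List.pairwise_cons] at hD hA
  obtain ⟨hD1, ⟨hyD2, hD2⟩, hDD⟩ := hD
  obtain ⟨hA1, ⟨haA2, hA2⟩, hAA⟩ := hA
  have hAx : AL R (A1 ++ x :: A2) := by
    unfold AL
    rw [List.pairwise_append, List.pairwise_cons]
    refine ⟨hA1, ⟨fun e hE => ?_, hA2⟩, fun b hB c hC => ?_⟩
    · by_contra hxe
      exact h.nt a x e hax hxe (haA2 e hE)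
    · rcases List.mem_cons.1 hC with rfl | hC
      · exact hb b hB
      · exact hAA b hB c (List.mem_cons_of_mem _ hC)
  have hDa : DL R (D1 ++ a :: D2) := by
    unfold DL
    rw [List.pairwise_append, List.pairwise_cons]
    refine ⟨hD1, ⟨fun e hE hae => ?_, hD2⟩, fun b hB c hC => ?_⟩
    · exact hyD2 e hE (h.tr y a e hya hae)
    · rcases List.mem_cons.1 hC with rfl | hC
      · exact he b hB
      · exact hDD b hB c (List.mem_cons_of_mem _ hC)
  have h1 := CrR_dl hAx
  have h2 := CrR_al hDa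
  refine ⟨A2.reverse, A1.reverse, D2.reverse, D1.reverse, a, by simp, by simp, ?_, ?_, ?_, ?_,
    ?_, ?_⟩
  · simpa using h1
  · simpa using h2
  · intro b hB
    exact hyD2 b (List.mem_reverse.1 hB)
  · exact not_not.2 hya
  · intro e hE
    exact not_not.2 (haA2 e (List.mem_reverse.1 hE))
  · exact hax

theorem cr_rev (h : Sup R) (u w : List α) (x y : α) :
    Cr (Rv R) w.reverse y x u.reverse ↔ Cr R u x y w := by
  constructor
  · intro hc
    have h1 := CrR_cr h.rv hc
    rwa [List.reverse_reverse, List.reverse_reverse, rv_rv] at h1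
  · exact CrR_cr h

theorem cr_ex' (h : Sup R) {w : List α} {y : α} (hw : Hk R w) (hyw : ¬ Hk R (y :: w)) :
    ∃ u x, Cr R u x y w := by
  have h1 : Hk (Rv R) w.reverse := (hk_rev w).2 hw
  have h2 : ¬ Hk (Rv R) (w.reverse ++ [y]) := by
    rw [← List.reverse_cons, hk_rev]
    exact hyw
  obtain ⟨x, v, hv⟩ := cr_ex h.rv h1 h2
  refine ⟨v.reverse, x, ?_⟩
  rw [← cr_rev h, List.reverse_reverse]
  exact hv

theorem cr_uniq' (h : Sup R) {u u' w : List α} {x x' y : α} (h1 : Cr R u x y w)
    (h2 : Cr R u' x' y w) : u = u' ∧ x = x' := by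
  obtain ⟨h3, h4⟩ := cr_uniq h.rv ((cr_rev h u w x y).2 h1) ((cr_rev h u' w x' y).2 h2)
  exact ⟨List.reverse_injective h4, h3⟩

end Pool.Agent.H71.RW
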