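import Pool.Agent.H71.RW.CrA

/-!
# CrU: the crossing is unique (90 lines)

COMPLETE PROOF. Let `u = (D1 ++ y :: D2) ++ (A1 ++ a :: A2)` and
`u = (D1' ++ y' :: D2') ++ (A1' ++ a' :: A2')` be the data of two crossings of `(u, x)`.
Put `P = D1 ++ y :: D2 ++ A1`, `P' = D1' ++ y' :: D2' ++ A1'`; `u = P ++ a :: A2 = P' ++ a' :: A2'`.
(1) `P = P'`, `a = a'`, `A2 = A2'` (the place of `a` is the first place of a letter `b` with
`¬ R b x` which has a letter `d` before it with `R d b`). By `List.append_eq_append_iff` the only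
other cases are symmetric to: `P' = P ++ a :: c`. Then `y ∈ P` stands before `a` in `P'` and
`R y a`, `¬ R a x`. The letter `a` (at this place of `P' = (D1' ++ y' :: D2') ++ A1'`) is either in
`A1'`, but then `R a x`, or in `D1' ++ y' :: D2'`, but then `y` stands before it in the same
descending list and `¬ R y a`. Contradiction.
(2) `y` is the first letter of `u` with `R y a` in `D1 ++ y :: D2`: from (1)
`D1 ++ y :: (D2 ++ A1) = D1' ++ y' :: (D2' ++ A1')`. Again the other cases are symmetric to
`D1' = D1 ++ y :: c`, but then `y ∈ D1'` and `¬ R y a' = ¬ R y a`. So `D1 = D1'`, `y = y'`,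
`D2 ++ A1 = D2' ++ A1'`.
(3) `w = D1 ++ a :: (D2 ++ A1) ++ x :: A2` is the same for both.
-/

set_option autoImplicit false

namespace Pool.Agent.H71.RW

variable {α : Type*} {R : α → α → Prop}

theorem cr_uniq (h : Sup R) {u w w' : List α} {x y y' : α} (h1 : Cr R u x y w)
    (h2 : Cr R u x y' w') : y = y' ∧ w = w' := by
  sorry

end Pool.Agent.H71.RW
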