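import Pool.Agent.H71.RW.Defs

/-!
# HkA: hook words, basic facts (120 lines)

COMPLETE PROOFS. `Hk R w` = `∃ D A, w = D ++ A`, `D` pairwise not R, `A` pairwise R.
* `hk_sub`: a sublist of `D ++ A` is `D' ++ A'` with sublists (`List.sublist_append_iff`), and
  `Pairwise` passes to sublists.
* `hk_two`: if `R a b` take `D = []`, otherwise `A = []`.
* `hk_three` (→): in `[a,b,c] = D ++ A` with `R a b`, `¬ R b c`: if `D` has at least two letters,
  `¬ R a b`; otherwise `b, c ∈ A` and `R b c`. (←): if `¬ R a b` take `D = [a,b]`, `A = [c]`;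
  otherwise `R a b`, `R b c`, so `R a c` and `A = [a,b,c]`.
* `hk_snoc`: `D ++ [x]` with `A = [x]`.
* `hk_app`: `w ++ [a] = D ++ A`. `A = []`: use `hk_snoc`. Otherwise `a` is the last letter of `A`;
  every `c ∈ A` is `a` or has `R c a`, so `R c b` (`h.tr`), and `A ++ [b]` is ascending.
* `hk_glue` (→) `hk_sub`. (←) If `R b c` use `hk_app` (with `w ++ [a]` for `w`). If `¬ R b c` then
  `¬ R a b` by `hk_three`. Write `w ++ [a,b] = D ++ A`. `A` has at most one letter (two letters
  would be `.., a, b` with `R a b`). So `D` contains `w ++ [a]`, and `w ++ [a,b]` is descending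
  (`¬ R e b` for `e ∈ w` from `¬ R e a`, `¬ R a b` and `h.nt`); `hk_snoc`.
* `hk_glue'` (→) `hk_sub`. (←) `b :: c :: l = D ++ A`. If `¬ R a b`: `D = []`: take `[a]` and `A`;
  `D = b :: D'`: `a :: D` is descending by `h.nt`. If `R a b` then `R b c`; `D` has at most one
  letter. `D = []`: `a :: A` is ascending (`h.tr`). `D = [b]`, `A = c :: l`: `b :: c :: l` is
  ascending by `R b c` and `h.tr`, then as before.
* `hk_nf`: induction on the length of `A` (for all `D`): `A = []` is done. `A = b :: A'`: if some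
  `d ∈ D` has `R d b` then for every `a ∈ A` `R d a` (`h.tr`), done; otherwise `D ++ [b]` is
  descending, use the induction hypothesis for `D ++ [b]`, `A'`.
* `fst_split`: induction on `l`.
-/

set_option autoImplicit false

namespace Pool.Agent.H71.RW

variable {α : Type*} {R : α → α → Prop}

theorem hk_sub {s w : List α} (hs : s.Sublist w) (hw : Hk R w) : Hk R s := by
  obtain ⟨D, A, rfl, hD, hA⟩ := hw
  obtain ⟨s1, s2, rfl, h1, h2⟩ := List.sublist_append_iff.1 hs
  exact ⟨s1, s2, rfl, List.Pairwise.sublist h1 hD, List.Pairwise.sublist h2 hA⟩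

theorem hk_two (a b : α) : Hk R [a, b] := by
  by_cases hab : R a b
  · exact ⟨[], [a, b], rfl, by simp [DL], by simp [AL, hab]⟩
  · exact ⟨[a, b], [], by simp, by simp [DL, hab], by simp [AL]⟩

theorem hk_one (a : α) : Hk R [a] := ⟨[a], [], by simp, by simp [DL], by simp [AL]⟩

theorem hk_nil : Hk R ([] : List α) := ⟨[], [], by simp, by simp [DL], by simp [AL]⟩

theorem hk_three (h : Sup R) (a b c : α) : Hk R [a, b, c] ↔ ¬ (R a b ∧ ¬ R b c) := by
  constructor
  · rintro ⟨D, A, he, hD, hA⟩ ⟨hab, hbc⟩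
    rcases D with _ | ⟨d, _ | ⟨e, D⟩⟩
    · rw [List.nil_append] at he
      subst he
      simp only [AL, List.pairwise_cons, List.mem_cons, List.not_mem_nil, or_false] at hA
      exact hbc (hA.2.1 c rfl)
    · simp only [List.cons_append, List.nil_append, List.cons.injEq] at he
      obtain ⟨rfl, rfl⟩ := he
      simp only [AL, List.pairwise_cons, List.mem_cons, List.not_mem_nil, or_false] at hA
      exact hbc (hA.1 c rfl)
    · simp only [List.cons_append, List.cons.injEq] at he
      obtain ⟨rfl, rfl, -⟩ := he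
      simp only [DL, List.pairwise_cons, List.mem_cons] at hD
      exact hD.1 b (Or.inl rfl) hab
  · intro hn
    by_cases hab : R a b
    · have hbc : R b c := by
        by_contra hbc
        exact hn ⟨hab, hbc⟩
      exact ⟨[], [a, b, c], rfl, by simp [DL], by simp [AL, hab, hbc, h.tr a b c hab hbc]⟩
    · exact ⟨[a, b], [c], rfl, by simp [DL, hab], by simp [AL]⟩

theorem hk_snoc {D : List α} (hD : DL R D) (x : α) : Hk R (D ++ [x]) :=
  ⟨D, [x], rfl, hD, by simp [AL]⟩

private lemma HkA_snoc_cases {w D A : List α} {a : α} (he : w ++ [a] = D ++ A) :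
    (A = [] ∧ D = w ++ [a]) ∨ ∃ A', A = A' ++ [a] ∧ w = D ++ A' := by
  rcases List.eq_nil_or_concat A with rfl | ⟨A', z, rfl⟩
  · left
    exact ⟨rfl, by rw [he, List.append_nil]⟩
  · right
    rw [List.concat_eq_append, ← List.append_assoc] at he
    obtain ⟨h1, h2⟩ := List.append_inj' he rfl
    rw [List.cons.injEq] at h2
    obtain ⟨rfl, -⟩ := h2
    exact ⟨A', by rw [List.concat_eq_append], h1⟩

private lemma HkA_al_snoc (h : Sup R) {A : List α} {a b : α} (hA : AL R (A ++ [a])) (hab : R a b) :
    AL R (A ++ [a] ++ [b]) := by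
  rw [AL, List.pairwise_append]
  refine ⟨hA, by simp, ?_⟩
  intro c hc d hd
  rw [List.mem_singleton] at hd
  subst hd
  rcases List.mem_append.1 hc with hc | hc
  · exact h.tr c a d ((List.pairwise_append.1 hA).2.2 c hc a (by simp)) hab
  · rw [List.mem_singleton] at hc
    subst hc
    exact hab

private lemma HkA_dl_snoc (h : Sup R) {A : List α} {a b : α} (hA : DL R (A ++ [a]))
    (hab : ¬ R a b) : DL R (A ++ [a] ++ [b]) := by
  rw [DL, List.pairwise_append]
  refine ⟨hA, by simp, ?_⟩
  intro c hc d hd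
  rw [List.mem_singleton] at hd
  subst hd
  rcases List.mem_append.1 hc with hc | hc
  · exact h.nt c a d ((List.pairwise_append.1 hA).2.2 c hc a (by simp)) hab
  · rw [List.mem_singleton] at hc
    subst hc
    exact hab

theorem hk_app (h : Sup R) {w : List α} {a b : α} (hw : Hk R (w ++ [a])) (hab : R a b) :
    Hk R (w ++ [a, b]) := by
  obtain ⟨D, A, he, hD, hA⟩ := hw
  have e1 : w ++ [a, b] = (w ++ [a]) ++ [b] := by simp
  rw [e1]
  rcases HkA_snoc_cases he with ⟨rfl, rfl⟩ | ⟨A', rfl, rfl⟩
  · exact hk_snoc hD b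
  · exact ⟨D, A' ++ [a] ++ [b], by simp, hD, HkA_al_snoc h hA hab⟩

theorem hk_glue (h : Sup R) (w : List α) (a b c : α) :
    Hk R (w ++ [a, b, c]) ↔ Hk R (w ++ [a, b]) ∧ Hk R [a, b, c] := by
  constructor
  · intro hw
    refine ⟨hk_sub ?_ hw, hk_sub (List.sublist_append_right _ _) hw⟩
    have e1 : w ++ [a, b, c] = (w ++ [a, b]) ++ [c] := by simp
    rw [e1]
    exact List.sublist_append_left _ _
  · rintro ⟨h1, h2⟩
    by_cases hbc : R b c
    · have e1 : w ++ [a, b, c] = (w ++ [a]) ++ [b, c] := by simp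
      have e2 : w ++ [a, b] = (w ++ [a]) ++ [b] := by simp
      rw [e1]
      rw [e2] at h1
      exact hk_app h h1 hbc
    · have hab : ¬ R a b := fun hab => (hk_three h a b c).1 h2 ⟨hab, hbc⟩
      have e1 : w ++ [a, b, c] = (w ++ [a] ++ [b]) ++ [c] := by simp
      have e2 : w ++ [a, b] = (w ++ [a]) ++ [b] := by simp
      rw [e1]
      rw [e2] at h1
      obtain ⟨D, A, he, hD, hA⟩ := h1
      rcases HkA_snoc_cases he with ⟨rfl, rfl⟩ | ⟨A', rfl, he'⟩
      · exact hk_snoc hD c
      · rcases HkA_snoc_cases he' with ⟨rfl, rfl⟩ | ⟨A'', rfl, rfl⟩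
        · exact hk_snoc (HkA_dl_snoc h hD hab) c
        · exfalso
          refine hab ?_
          have := (List.pairwise_append.1 hA).2.2 a (by simp) b (by simp)
          exact this

theorem hk_glue' (h : Sup R) (a b c : α) (l : List α) :
    Hk R (a :: b :: c :: l) ↔ Hk R [a, b, c] ∧ Hk R (b :: c :: l) := by
  constructor
  · intro hw
    refine ⟨hk_sub ?_ hw, hk_sub (List.sublist_cons_self _ _) hw⟩
    have e1 : a :: b :: c :: l = [a, b, c] ++ l := by simp
    rw [e1]
    exact List.sublist_append_left _ _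
  · rintro ⟨h1, D, A, he, hD, hA⟩
    by_cases hab : R a b
    · have hbc : R b c := by
        by_contra hbc
        exact (hk_three h a b c).1 h1 ⟨hab, hbc⟩
      have hal : AL R (b :: c :: l) → Hk R (a :: b :: c :: l) := by
        intro hb
        refine ⟨[], a :: b :: c :: l, rfl, by simp [DL], ?_⟩
        rw [AL, List.pairwise_cons]
        refine ⟨?_, hb⟩
        intro e hE
        rcases List.mem_cons.1 hE with rfl | hE
        · exact hab
        · exact h.tr a b e hab ((List.pairwise_cons.1 hb).1 e hE)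
      rcases D with _ | ⟨d, _ | ⟨e, D⟩⟩
      · rw [List.nil_append] at he
        subst he
        exact hal hA
      · simp only [List.cons_append, List.nil_append, List.cons.injEq] at he
        obtain ⟨rfl, rfl⟩ := he
        apply hal
        rw [AL, List.pairwise_cons]
        refine ⟨?_, hA⟩
        intro e hE
        rcases List.mem_cons.1 hE with rfl | hE
        · exact hbc
        · exact h.tr b c e hbc ((List.pairwise_cons.1 hA).1 e hE)
      · exfalso
        simp only [List.cons_append, List.cons.injEq] at he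
        obtain ⟨rfl, rfl, -⟩ := he
        exact (List.pairwise_cons.1 hD).1 c (by simp) hbc
    · rcases D with _ | ⟨d, D⟩
      · rw [List.nil_append] at he
        subst he
        exact ⟨[a], b :: c :: l, rfl, by simp [DL], hA⟩
      · rw [List.cons_append, List.cons.injEq] at he
        obtain ⟨rfl, he2⟩ := he
        refine ⟨a :: b :: D, A, by rw [he2]; rfl, ?_, hA⟩
        rw [DL, List.pairwise_cons]
        refine ⟨?_, hD⟩
        intro e hE
        rcases List.mem_cons.1 hE with rfl | hE
        · exact hab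
        · exact h.nt a b e hab ((List.pairwise_cons.1 hD).1 e hE)

/-- normal form. -/
theorem hk_nf (h : Sup R) {u : List α} (hu : Hk R u) :
    ∃ D A, u = D ++ A ∧ DL R D ∧ AL R A ∧ ∀ a ∈ A, ∃ d ∈ D, R d a := by
  obtain ⟨D, A, rfl, hD, hA⟩ := hu
  induction A generalizing D with
  | nil => exact ⟨D, [], rfl, hD, hA, by simp⟩
  | cons b A' ih =>
    by_cases hb : ∃ d ∈ D, R d b
    · obtain ⟨d, hd, hdb⟩ := hb
      refine ⟨D, b :: A', rfl, hD, hA, fun a ha => ⟨d, hd, ?_⟩⟩
      rcases List.mem_cons.1 ha with rfl | ha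
      · exact hdb
      · exact h.tr _ _ _ hdb ((List.pairwise_cons.1 hA).1 a ha)
    · have hD' : DL R (D ++ [b]) := by
        rw [DL, List.pairwise_append]
        refine ⟨hD, by simp, ?_⟩
        intro d hd e he hde
        rw [List.mem_singleton] at he
        subst he
        exact hb ⟨d, hd, hde⟩
      obtain ⟨D2, A2, he, h1, h2, h3⟩ := ih (D ++ [b]) hD' (List.pairwise_cons.1 hA).2
      exact ⟨D2, A2, by rw [← he]; simp, h1, h2, h3⟩

theorem fst_split (p : α → Prop) {l : List α} (hl : ∃ a ∈ l, p a) :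
    ∃ l1 a l2, l = l1 ++ a :: l2 ∧ p a ∧ ∀ b ∈ l1, ¬ p b := by
  induction l with
  | nil =>
    obtain ⟨a, ha, -⟩ := hl
    simp at ha
  | cons x l ih =>
    by_cases hx : p x
    · exact ⟨[], x, l, rfl, hx, by simp⟩
    · have hl' : ∃ a ∈ l, p a := by
        obtain ⟨a, ha, hpa⟩ := hl
        rcases List.mem_cons.1 ha with rfl | ha
        · exact absurd hpa hx
        · exact ⟨a, ha, hpa⟩
      obtain ⟨l1, a, l2, rfl, hpa, hn⟩ := ih hl'
      refine ⟨x :: l1, a, l2, rfl, hpa, ?_⟩
      intro b hb
      rcases List.mem_cons.1 hb with rfl | hb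
      · exact hx
      · exact hn b hb

end Pool.Agent.H71.RW
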