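import Pool.Agent.H71.RW.CrA

/-!
# SmA: small facts on the length of hook subwords (110 lines)

COMPLETE PROOFS.
* `bd_sub`: sublists are transitive. `bd_self`: if `Hk R w` and `Bd R w k` then `w.length ≤ k`.
* `bd_grow` (→): a hook sublist `s` of `t ++ (v ++ [y])` is a hook sublist of `t ++ v`, or `s = s' ++ [y]`
  with `s'` a (hook) sublist of `t ++ v`; so `s.length ≤ v.length + 1`. This is (←) of the statement.
  (→) let `Bd R (t ++ (v ++ [y])) (v.length + 1)` and let `s` be a hook sublist of `t ++ v` with
  `s.length > v.length`. `s = D ++ A`. If `s ++ [y]` is a hook word then `s.length + 1 ≤ v.length + 1`,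
  contradiction. So `s ++ [y]` is no hook word: `A ≠ []`, say `A = A' ++ [m]`, `¬ R m y` (otherwise
  `A ++ [y]` is ascending) and `s` is not descending. `v ++ [y] = E ++ B` is a hook word. Write
  `s = st ++ sv` (parts in `t` and in `v`). `sv ≠ []` because `st.length ≤ t.length < v.length`. So `m`
  is the last letter of `sv`. `m` is not a letter of `B` other than the last letter `y` of
  `v ++ [y]` (the place of `m` is in `v`; a letter of `B` before the last letter `y` has `R m y`). So
  (the place of) `m` is in `E` and `sv` is a sublist of `E` (as a sublist of `v` whose last place is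
  in `E`; if `B = []` take `E` without its last letter `y`), hence descending. `A ∩ sv`: at most one
  letter, so `sv = [m]` or the letter before `m` in `s` is in `D`. If `sv = [m]`:
  `s.length ≤ t.length + 1 ≤ v.length`, contradiction. Otherwise `A = [m]` (the letter before `m` is
  in `sv`, it is not in `A`, so it is the last letter `d` of `D`), `¬ R d m` since `sv` is descending, so
  `s = D ++ [m]` is descending (nt), contradiction to: `s` is not descending.
* `bd_short`: `w = D ++ A` (`hk_nf` or any), `u = e :: u'`. If `w ++ [e]` is a hook word it is a sublist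
  of `w ++ u` of length `w.length + 1 = u.length + 1 > u.length`. Otherwise `A = A' ++ [b]` with
  `¬ R b e` (if `A = []` then `D ++ [e]` is a hook word; if `R b e` then `A ++ [e]` is ascending).
  `b :: u` is a hook word: `u = E ++ B`; if `E = []` take `[b]` and `B = u`; otherwise `E = e :: E'` and
  `b :: E` is descending (`¬ R b e`, `¬ R e e'`, nt). It is a sublist of `w ++ u` of length
  `u.length + 1`. Contradiction.
* `bd_one`: (→) if `y :: w` is a hook word then its length is at most `w.length`. (←) a sublist of
  `y :: w` of length `> w.length` is `y :: w` (`List.Sublist.eq_of_length_le`), no hook word.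
-/

set_option autoImplicit false

namespace Pool.Agent.H71.RW

variable {α : Type*} {R : α → α → Prop}

theorem bd_sub {s w : List α} {k : ℕ} (hs : s.Sublist w) (hw : Bd R w k) : Bd R s k := by
  sorry

theorem bd_self {w : List α} {k : ℕ} (hw : Hk R w) (hb : Bd R w k) : w.length ≤ k := by
  sorry

theorem bd_grow (h : Sup R) {t v : List α} {y : α} (hl : t.length < v.length)
    (hv : Hk R (v ++ [y])) :
    Bd R (t ++ (v ++ [y])) (v.length + 1) ↔ Bd R (t ++ v) v.length := by
  sorry

theorem bd_short (h : Sup R) {w u : List α} (hw : Hk R w) (hu : Hk R u) (hu0 : u ≠ [])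
    (hl : w.length = u.length) : ¬ Bd R (w ++ u) u.length := by
  sorry

theorem bd_one (y : α) (w : List α) : Bd R ([y] ++ w) w.length ↔ ¬ Hk R (y :: w) := by
  sorry

end Pool.Agent.H71.RW
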