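import Pool.Agent.H71.RW.CrR
import Pool.Agent.H71.RW.SmA

/-!
# InsA: row insertion, existence, determinism, shape (120 lines)

COMPLETE PROOFS.
* `ins_ex`: induction on `T` (for all `x`). `[]`: `Ins.nil`. `u :: T`: if `Hk R (u ++ [x])`: `Ins.grow`.
  Otherwise `cr_ex` (row `u` is a hook word by `Ch`) gives `y, w`, the induction hypothesis for
  `T, y`: `Ins.bump`.
* `ins_det`: induction on the first insertion; grow against bump is impossible by `Cr.nu`; bump
  against bump: `cr_uniq`.
* `ins_det'`: induction on the first insertion. nil: `T' = [[x]]`, `r = 0`; the second one is nil, or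
  grow with `(u ++ [x2]) :: T = [[x]]`, so `u = []`, impossible by `Ch`. grow: symmetric, or grow and
  grow: `u ++ [x] = u2 ++ [x2]`. bump and bump: induction hypothesis (`Ch R` of the tail) gives the
  same tail and the same `y`; `cr_uniq'`.
* `ins_shape`, `ins_le`: induction (`Cr.len`). `ins_last`: the lengths of the first rows differ by at
  most one: `v` is the first row of `T` and `v'` the first row of `T'`: `v'.length ≤ v.length + 1`.
-/

set_option autoImplicit false

namespace Pool.Agent.H71.RW

variable {α : Type*} {R : α → α → Prop}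

theorem ins_ex (h : Sup R) {T : List (List α)} (hT : Ch R T) (x : α) :
    ∃ T' r, Ins R T x T' r := by
  sorry

theorem ins_det (h : Sup R) {T T1 T2 : List (List α)} {x : α} {r1 r2 : ℕ}
    (h1 : Ins R T x T1 r1) (h2 : Ins R T x T2 r2) : T1 = T2 ∧ r1 = r2 := by
  sorry

theorem ins_det' (h : Sup R) {T1 T2 T' : List (List α)} {x1 x2 : α} {r : ℕ}
    (hc1 : Ch R T1) (hc2 : Ch R T2) (h1 : Ins R T1 x1 T' r) (h2 : Ins R T2 x2 T' r) :
    T1 = T2 ∧ x1 = x2 := by
  sorry

theorem ins_shape {T T' : List (List α)} {x : α} {r : ℕ} (hi : Ins R T x T' r) :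
    T'.map List.length = add (T.map List.length) r := by
  sorry

theorem ins_le {T T' : List (List α)} {x : α} {r : ℕ} (hi : Ins R T x T' r) :
    r ≤ T.length ∧ T'.length ≤ T.length + 1 := by
  sorry

end Pool.Agent.H71.RW
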