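import Pool.Agent.H19.RWp.Bridge

/-!
MP_1e629d_co, part (D): the longest hook subword of `p u` and of `p y w`, second inequality.
-/

set_option autoImplicit false

namespace Pool.Agent.H71.RW

variable {α : Type*} {R : α → α → Prop} {u w : List α} {x y : α}

theorem inv_le (h : Sup R) (hc : Cr R u x y w) (p : List α) (k : ℕ) :
    Bd R (p ++ u) k → Bd R (p ++ y :: w) k :=
  Pool.Agent.H19.RWp.B.inv_le h hc p k

end Pool.Agent.H71.RW
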