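import Pool.Agent.H71.RW.InvA
import Pool.Agent.H71.RW.InvB

/-!
# InvR: lemma INV, both halves, and its reversed form (40 lines)

COMPLETE PROOF. `inv`: `inv_ge` and `inv_le`. `inv_r`: `hc : Cr R v y z v'`; by `cr_rev`
`Cr (Rv R) v'.reverse z y v.reverse`; `inv` for `Rv R` (`h.rv`) with `p := s.reverse` gives
`Bd (Rv R) (s.reverse ++ v'.reverse) k ↔ Bd (Rv R) (s.reverse ++ y :: v.reverse) k`;
`s.reverse ++ v'.reverse = (v' ++ s).reverse`, `s.reverse ++ y :: v.reverse = (v ++ y :: s).reverse`;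
`bd_rev`.
-/

set_option autoImplicit false

namespace Pool.Agent.H71.RW

variable {α : Type*} {R : α → α → Prop}

theorem inv (h : Sup R) {u w : List α} {x y : α} (hc : Cr R u x y w) (p : List α) (k : ℕ) :
    Bd R (p ++ y :: w) k ↔ Bd R (p ++ u) k :=
  ⟨inv_ge h hc p k, inv_le h hc p k⟩

theorem inv_r (h : Sup R) {v v' : List α} {y z : α} (hc : Cr R v y z v') (s : List α) (k : ℕ) :
    Bd R (v ++ y :: s) k ↔ Bd R (v' ++ s) k := by
  sorry

end Pool.Agent.H71.RW
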