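import Pool.Agent.H71.RW.InsA
import Pool.Agent.H71.RW.InvR

/-!
# InsB: row insertion is a bijection on chains (150 lines)

COMPLETE PROOFS.
* `vh_step`: `Cr R u x y w`, `Ins R T y T' r`. nil: `Vh R [] u` is true and `Vh R [[y]] w` is
  `Bd R ([y] ++ w) w.length`, true by `bd_one` and `Cr.nw`. grow (`T = v :: T3`): `Vh` of `T'` is
  `Bd R ((v ++ [y]) ++ w) w.length` = `Bd R (v ++ y :: w) ..`, `inv` with `p = v`, `Cr.len`.
  bump (`Cr R v y z v'`): `Bd R (v' ++ w) ..` ↔ `Bd R (v ++ y :: w) ..` (`inv_r`) ↔ `Bd R (v ++ u) ..`
  (`inv`).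
* `vh_nh`: nil: `bd_one`. grow: `y :: w` is a sublist of `(v ++ [y]) ++ w`: `bd_sub`, `bd_one`. bump:
  `inv_r` gives `Bd R (v ++ y :: w) w.length`, then the same.
* `ch_st`: the shape of a chain is strict: induction.
* `ins_ch`: induction on the insertion. nil: `[[x]]` is a chain. grow: first row `u ++ [x]`, hook word;
  tail unchanged; for the first row `v` of the tail `v.length < u.length`, `bd_grow`. bump: `w` is a
  hook word (`Cr.hkw`), `w ≠ []`, the tail `T'` is a chain by induction; `Vh R T u` holds, so
  `Vh R T' w` (`vh_step`); for `v' ∈ T'.head?` `v'.length < w.length`: `v'.length ≤ w.length` because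
  the first row grows by at most one (`T = []`: `v' = [y]` has length one, `w ≠ []`; grow:
  `v.length + 1 ≤ u.length = w.length`; bump: `v'.length = v.length < u.length`), and equality
  is impossible by `bd_short` (`v'` is a hook word because `T'` is a chain).
* `ins_back`: induction on `l` (for all `r, T'`). `l = []`, `r = 0`: `T'` has shape `[1]`, `T' = [[x]]`,
  take `T = []`. `l = []`, `r + 1`: shape `[0]`, but rows of a chain are nonempty. `l = n :: l'`,
  `r = 0`: `T' = w :: T2`, `w.length = n + 1`, `w = u ++ [x]`; `u` is a hook word (`hk_sub`), nonempty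
  (`0 < n`), `T2` is a chain of shape `l'`; for its first row `v`: `v.length < n` (`St l`), `bd_grow`.
  `r + 1`: `T' = w :: T2'`, `T2'` of shape `add l' r`; induction: `T2, y`. `Vh R T2' w` (part of `Ch`),
  so `¬ Hk R (y :: w)` (`vh_nh`), `cr_ex'`: `Cr R u x y w`; `u.length = n`; `Vh R T2 u` (`vh_step`); so
  `u :: T2` is a chain (`v.length < n` from `St l`), `Ins.bump`.
-/

set_option autoImplicit false

namespace Pool.Agent.H71.RW

variable {α : Type*} {R : α → α → Prop}

theorem vh_step (h : Sup R) {u w : List α} {x y : α} {T T' : List (List α)} {r : ℕ}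
    (hc : Cr R u x y w) (hi : Ins R T y T' r) : Vh R T u ↔ Vh R T' w := by
  have hl : w.length = u.length := hc.len
  cases hi with
  | nil _ =>
    constructor
    · intro _ v hv
      have hv2 : [y] = v := by simpa using hv
      rw [← hv2]
      exact (bd_one y w).2 (hc.nw h)
    · intro _ v hv
      simp at hv
  | grow v T3 _ hk =>
    have e : (v ++ [y]) ++ w = v ++ y :: w := by simp
    constructor
    · intro hV v2 hv2
      have h2 : v ++ [y] = v2 := by simpa using hv2
      rw [← h2, e, hl]
      exact (inv h hc v _).2 (hV v (by simp))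
    · intro hV v2 hv2
      have h2 : v = v2 := by simpa using hv2
      rw [← h2]
      have h3 := hV (v ++ [y]) (by simp)
      rw [e, hl] at h3
      exact (inv h hc v _).1 h3
  | bump v v' T3 T3' _ z r hc' hT =>
    constructor
    · intro hV v2 hv2
      have h2 : v' = v2 := by simpa using hv2
      rw [← h2, hl]
      exact (inv_r h hc' w _).1 ((inv h hc v _).2 (hV v (by simp)))
    · intro hV v2 hv2
      have h2 : v = v2 := by simpa using hv2
      rw [← h2]
      have h3 := hV v' (by simp)
      rw [hl] at h3
      exact (inv h hc v _).1 ((inv_r h hc' w _).2 h3)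

theorem vh_nh (h : Sup R) {w : List α} {y : α} {T T' : List (List α)} {r : ℕ}
    (hi : Ins R T y T' r) (hv : Vh R T' w) : ¬ Hk R (y :: w) := by
  cases hi with
  | nil _ => exact (bd_one y w).1 (hv [y] (by simp))
  | grow v T3 _ hk =>
    have h3 := hv (v ++ [y]) (by simp)
    have hs : ([y] ++ w).Sublist ((v ++ [y]) ++ w) := by
      rw [List.append_assoc]
      exact List.sublist_append_right v ([y] ++ w)
    exact (bd_one y w).1 (bd_sub hs h3)
  | bump v v' T3 T3' _ z r hc' hT =>
    have h3 := (inv_r h hc' w _).2 (hv v' (by simp))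
    have hs : ([y] ++ w).Sublist (v ++ y :: w) := by
      have := List.sublist_append_right v (y :: w)
      simpa using this
    exact (bd_one y w).1 (bd_sub hs h3)

theorem ch_st {T : List (List α)} (hT : Ch R T) : St (T.map List.length) := by
  induction T with
  | nil => exact trivial
  | cons u T ih =>
    obtain ⟨_, hu0, hTc, hv⟩ := hT
    refine ⟨List.length_pos_iff.2 hu0, ih hTc, fun m hm => ?_⟩
    rw [List.head?_map] at hm
    obtain ⟨v, hv1, hv2⟩ := Option.mem_map.1 hm
    rw [← hv2]
    exact (hv v hv1).1

private theorem InsB_len {n : ℕ} {T T' : List (List α)} {y : α} {r : ℕ} (hi : Ins R T y T' r)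
    (hn : 0 < n) (hT : ∀ v ∈ T.head?, v.length < n) : ∀ v ∈ T'.head?, v.length ≤ n := by
  intro v2 hv2
  cases hi with
  | nil _ =>
    have h2 : [y] = v2 := by simpa using hv2
    rw [← h2]
    simp only [List.length_cons, List.length_nil]
    omega
  | grow v T3 _ hk =>
    have h2 : v ++ [y] = v2 := by simpa using hv2
    have h3 := hT v (by simp)
    rw [← h2, List.length_append]
    simp only [List.length_cons, List.length_nil]
    omega
  | bump v v' T3 T3' _ z r hc' hT2 =>
    have h2 : v' = v2 := by simpa using hv2
    have h3 := hT v (by simp)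
    have h4 := hc'.len
    rw [← h2]
    omega

theorem ins_ch (h : Sup R) {T T' : List (List α)} {x : α} {r : ℕ} (hT : Ch R T)
    (hi : Ins R T x T' r) : Ch R T' := by
  induction hi with
  | nil x =>
    exact ⟨hk_one x, by simp, trivial, fun v hv => by simp at hv⟩
  | grow u T x hk =>
    obtain ⟨_, _, hTc, hv⟩ := hT
    refine ⟨hk, by simp, hTc, fun v hv1 => ?_⟩
    obtain ⟨h1, h2⟩ := hv v hv1
    have e : (u ++ [x]).length = u.length + 1 := by simp
    rw [e]
    exact ⟨by omega, (bd_grow h h1 hk).2 h2⟩
  | bump u w T T' x y r hc hI ih =>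
    obtain ⟨_, hu0, hTc, hv⟩ := hT
    have hT' : Ch R T' := ih hTc
    have hV : Vh R T' w := (vh_step h hc hI).1 (fun v hv1 => (hv v hv1).2)
    refine ⟨hc.hkw h, hc.ne.2, hT', fun v' hv' => ⟨?_, hV v' hv'⟩⟩
    have hl := hc.len
    have h1 : v'.length ≤ u.length :=
      InsB_len hI (List.length_pos_iff.2 hu0) (fun v hv1 => (hv v hv1).1) v' hv'
    rcases Nat.lt_or_ge v'.length w.length with h2 | h2
    · exact h2
    · exfalso
      have h3 : v'.length = w.length := by omega
      have hk' : Hk R v' := by
        cases T' with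
        | nil => simp at hv'
        | cons a T'' =>
          have h4 : a = v' := by simpa using hv'
          rw [← h4]
          exact hT'.1
      exact bd_short h hk' (hc.hkw h) hc.ne.2 h3 (hV v' hv')

theorem ins_back (h : Sup R) {l : List ℕ} (hl : St l) {r : ℕ} {T' : List (List α)}
    (hT' : Ch R T') (hs : T'.map List.length = add l r) :
    ∃ T x, Ins R T x T' r ∧ Ch R T ∧ T.map List.length = l := by
  induction l generalizing r T' with
  | nil =>
    cases r with
    | zero =>
      cases T' with
      | nil => simp [add] at hs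
      | cons w T2 =>
        simp only [add, List.map_cons, List.cons.injEq, List.map_eq_nil_iff] at hs
        obtain ⟨hw, h2⟩ := hs
        obtain ⟨x, hx⟩ := List.length_eq_one_iff.1 hw
        rw [hx, h2]
        exact ⟨[], x, Ins.nil x, trivial, rfl⟩
    | succ r =>
      cases T' with
      | nil => simp [add] at hs
      | cons w T2 =>
        simp only [add, List.map_cons, List.cons.injEq, List.map_eq_nil_iff,
          List.length_eq_zero_iff] at hs
        exact absurd hs.1 hT'.2.1
  | cons n l' ih =>
    obtain ⟨hn, hl', hlm⟩ := hl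
    cases r with
    | zero =>
      cases T' with
      | nil => simp [add] at hs
      | cons w T2 =>
        simp only [add, List.map_cons, List.cons.injEq] at hs
        obtain ⟨hw, h2⟩ := hs
        have hw0 : w ≠ [] := by
          rintro rfl
          simp at hw
        obtain ⟨u, x, rfl⟩ : ∃ u x, w = u ++ [x] :=
          ⟨w.dropLast, w.getLast hw0, (List.dropLast_append_getLast hw0).symm⟩
        have e : (u ++ [x]).length = u.length + 1 := by simp
        have hu : u.length = n := by omega
        obtain ⟨hk, _, hTc, hv⟩ := hT'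
        have hlt : ∀ v ∈ T2.head?, v.length < u.length := by
          intro v hv1
          rw [hu]
          refine hlm _ ?_
          rw [← h2, List.head?_map]
          exact Option.mem_map.2 ⟨v, hv1, rfl⟩
        refine ⟨u :: T2, x, Ins.grow u T2 x hk, ⟨hk_sub (List.sublist_append_left u [x]) hk,
          ?_, hTc, fun v hv1 => ⟨hlt v hv1, ?_⟩⟩, ?_⟩
        · rintro rfl
          simp at hu
          omega
        · have h3 := (hv v hv1).2
          rw [e] at h3
          exact (bd_grow h (hlt v hv1) hk).1 h3
        · rw [List.map_cons, hu, h2]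
    | succ r =>
      cases T' with
      | nil => simp [add] at hs
      | cons w T2 =>
        simp only [add, List.map_cons, List.cons.injEq] at hs
        obtain ⟨hw, h2⟩ := hs
        obtain ⟨hk, _, hTc, hv⟩ := hT'
        obtain ⟨T3, y, hI, hT3, hm⟩ := ih hl' hTc h2
        have hV : Vh R T2 w := fun v hv1 => (hv v hv1).2
        obtain ⟨u, x, hc⟩ := cr_ex' h hk (vh_nh h hI hV)
        have hlen := hc.len
        have hVu : Vh R T3 u := (vh_step h hc hI).2 hV
        refine ⟨u :: T3, x, Ins.bump u w T3 T2 x y r hc hI, ⟨hc.hku, hc.ne.1, hT3,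
          fun v hv1 => ⟨?_, hVu v hv1⟩⟩, ?_⟩
        · rw [← hlen, hw]
          refine hlm _ ?_
          rw [← hm, List.head?_map]
          exact Option.mem_map.2 ⟨v, hv1, rfl⟩
        · rw [List.map_cons, hm, ← hlen, hw]

end Pool.Agent.H71.RW
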