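import Pool.Agent.H71.RW.SumB
import Pool.Agent.H71.RW.AlgA

/-!
# PthA: paths of a word, sums over the words with a given path (110 lines)

COMPLETE PROOFS. `pth R T w` = the rows which grow when the letters of `w` are inserted one after the
other. `pth_len`: induction. `pth_lt`: induction on `w` (for all `T`): `iR R T x ≤ T.length` and
`(iT R T x).length ≤ T.length + 1` by `ins_le`. `pth_adm`: induction: `iT R T x` is a chain (`ins_ch`)
of shape `add (shape T) (iR R T x)` (`ins_shape`), strict by `ch_st`.
`path_sum`: induction on `ρ` (for all `l`). `ρ = []`: the only word is `[]`: both sides are `MM R f l`.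
`ρ = r :: ρ'`: by `sum_listsOver_succ` the left side is (write filters as indicators, or
`Finset.sum_filter`)
`∑ T ∈ SS R l, ∑ x with iR R T x = r, ∑ w' with pth R (iT R T x) w' = ρ', FT f T * (f x * [w'])`,
and `FT f T * f x = FT f (iT R T x)` (`ins_prod`). By `step` with
`φ T' := ∑ w' with pth R T' w' = ρ', FT f T' * [w']` it is the sum of `φ` over `SS R (add l r)`. If
`add l r` is not strict this is `0` (`SS_ns`) and `Adm` is false; otherwise use the induction
hypothesis for `add l r`.
-/

set_option autoImplicit false

open Finset

namespace Pool.Agent.H71.RW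

variable {α : Type*}

/-- the path of a word. -/
noncomputable def pth (R : α → α → Prop) : List (List α) → List α → List ℕ
  | _, [] => []
  | T, x :: w => iR R T x :: pth R (iT R T x) w

variable {R : α → α → Prop}

theorem pth_len (T : List (List α)) (w : List α) : (pth R T w).length = w.length := by
  induction w generalizing T with
  | nil => rfl
  | cons x w ih =>
    show (pth R (iT R T x) w).length + 1 = w.length + 1
    rw [ih]

theorem pth_lt (h : Sup R) {T : List (List α)} (hT : Ch R T) (w : List α) :
    ∀ r ∈ pth R T w, r < T.length + w.length := by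
  induction w generalizing T with
  | nil =>
    intro r hr
    exact absurd hr List.not_mem_nil
  | cons x w ih =>
    intro r hr
    have hsp := ins_spec h hT x
    have hle := ins_le hsp
    have hr' : r = iR R T x ∨ r ∈ pth R (iT R T x) w := List.mem_cons.1 hr
    rw [List.length_cons]
    rcases hr' with hr' | hr'
    · omega
    · have h2 := ih (ins_ch h hT hsp) r hr'
      omega

theorem pth_adm (h : Sup R) {T : List (List α)} (hT : Ch R T) (w : List α) :
    Adm (T.map List.length) (pth R T w) := by
  induction w generalizing T with
  | nil => exact trivial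
  | cons x w ih =>
    have hsp := ins_spec h hT x
    have hch := ins_ch h hT hsp
    have hsh := ins_shape hsp
    show St (add (T.map List.length) (iR R T x)) ∧
      Adm (add (T.map List.length) (iR R T x)) (pth R (iT R T x) w)
    rw [← hsh]
    exact ⟨ch_st hch, ih hch⟩

open Classical in
theorem path_sum (h : Sup R) [Fintype α] {S : Type*} [Ring S] {f : α → S} (hf : Rels R f)
    (ρ : List ℕ) {l : List ℕ} (hl : St l) :
    ∑ T ∈ SS R l, ∑ w ∈ (listsOver univ ρ.length).filter (fun w => pth R T w = ρ),
        FT f T * (w.map f).prod
      = if Adm l ρ then MM R f (addL l ρ) else 0 := by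
  induction ρ generalizing l with
  | nil =>
    have h1 : Adm l [] := trivial
    rw [if_pos h1]
    show _ = ∑ T ∈ SS R l, FT f T
    apply sum_congr rfl
    intro T _
    have h2 : (listsOver (univ : Finset α) ([] : List ℕ).length).filter (fun w => pth R T w = [])
        = {[]} := by
      ext w
      rw [mem_filter, mem_listsOver, mem_singleton]
      constructor
      · rintro ⟨⟨h3, _⟩, _⟩
        exact List.length_eq_zero_iff.1 h3
      · rintro rfl
        exact ⟨⟨rfl, fun a ha => mem_univ a⟩, rfl⟩
    rw [h2, sum_singleton]
    simp
  | cons r ρ ih =>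
    let ψ : List (List α) → α → S := fun T x =>
      ∑ w ∈ (listsOver univ ρ.length).filter (fun w => pth R (iT R T x) w = ρ),
        FT f T * f x * (w.map f).prod
    let φ : List (List α) → S := fun T' =>
      ∑ w ∈ (listsOver univ ρ.length).filter (fun w => pth R T' w = ρ),
        FT f T' * (w.map f).prod
    have hψ : ∀ T x T', Ch R T → Ins R T x T' r → ψ T x = φ T' := by
      intro T x T' _ hi
      obtain ⟨e1, _⟩ := ins_eq h hi
      have e2 := ins_prod h hf hi
      show (∑ w ∈ (listsOver univ ρ.length).filter (fun w => pth R (iT R T x) w = ρ),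
        FT f T * f x * (w.map f).prod) = _
      rw [e1, e2]
    have hst := step h hl r ψ φ hψ
    have hL : ∀ T : List (List α),
        (∑ w ∈ (listsOver univ (r :: ρ).length).filter (fun w => pth R T w = r :: ρ),
          FT f T * (w.map f).prod) = ∑ x ∈ univ.filter (fun x => iR R T x = r), ψ T x := by
      intro T
      rw [sum_filter, List.length_cons, sum_listsOver_succ, sum_filter]
      apply sum_congr rfl
      intro x _
      by_cases hx : iR R T x = r
      · rw [if_pos hx]
        show _ = ∑ w ∈ (listsOver univ ρ.length).filter (fun w => pth R (iT R T x) w = ρ),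
          FT f T * f x * (w.map f).prod
        rw [sum_filter]
        apply sum_congr rfl
        intro w _
        have e3 : pth R T (x :: w) = iR R T x :: pth R (iT R T x) w := rfl
        by_cases hw : pth R (iT R T x) w = ρ
        · rw [if_pos hw, if_pos (by rw [e3, hx, hw]), List.map_cons, List.prod_cons, mul_assoc]
        · rw [if_neg hw, if_neg]
          rw [e3]
          intro h4
          exact hw (List.cons.inj h4).2
      · rw [if_neg hx]
        apply sum_eq_zero
        intro w _
        rw [if_neg]
        intro h4
        exact hx (List.cons.inj h4).1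
    rw [sum_congr rfl (fun T _ => hL T), hst]
    show (∑ T' ∈ SS R (add l r), ∑ w ∈ (listsOver univ ρ.length).filter (fun w => pth R T' w = ρ),
        FT f T' * (w.map f).prod) = _
    by_cases hs : St (add l r)
    · rw [ih hs]
      have e4 : Adm l (r :: ρ) ↔ Adm (add l r) ρ := ⟨fun h5 => h5.2, fun h5 => ⟨hs, h5⟩⟩
      by_cases h6 : Adm (add l r) ρ
      · rw [if_pos h6, if_pos (e4.2 h6)]
        rfl
      · rw [if_neg h6, if_neg (fun h7 => h6 (e4.1 h7))]
    · rw [SS_ns hs, sum_empty, if_neg (fun h7 : Adm l (r :: ρ) => hs h7.1)]

end Pool.Agent.H71.RW
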