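import Pool.Agent.H71.RW.PkC
import Pool.Agent.H71.RW.PthA

/-!
# Peak: the peak rule (150 lines)

COMPLETE PROOF. `Sup Rp` is clear; `hk_three` for `Rp`: `Hk Rp [r, r', r'']` ↔ `¬ (r' ≤ r ∧ r' < r'')`.
`peak3`: induction on `T` (for all letters). `T = []`: `Ins.nil`: `T1 = [[x]]`, `r = 0`. `[x, x']` is a hook
word (`hk_two`), so the second step is grow (bump is impossible by `Cr.nu`), `r' = 0`,
`T2 = [[x, x']]`; third step: grow iff `[x, x', x'']` is a hook word (`r'' = 0`), otherwise `r'' ≥ 1`.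
`T = u :: T0`: 8 cases (G = grow, B = bump), rows of the other cases are `0` for G, `≥ 1` for B:
GGG: `Hk R (u ++ [x, x', x''])`, so `Hk R [x, x', x'']` (`hk_sub`); rows `0 0 0`.
GGB: `Hk R (u ++ [x, x'])`, not `Hk R (u ++ [x, x', x''])` (`Cr.nu`); `hk_glue`: not `Hk R [x, x', x'']`; rows
`0 0 ≥1`.
GBG, GBB: `Hk R (u ++ [x])`, not `Hk R (u ++ [x, x'])`: `¬ R x x'` by `hk_app`, so `[x, x', x'']` is a hook word
(`hk_three`); rows `0 ≥1 .`.
BGG: `Cr R u x y w`, `Hk R (w ++ [x', x''])`, `x ∈ w` (`Cr.mem`): `[x, x', x'']` is a sublist. Rows `≥1 0 0`.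
BGB: `Hk R (w ++ [x'])`, not `Hk R (w ++ [x', x''])`. `¬ R x' x''` (`hk_app`). `w = w0 ++ [b]` (`Cr.ne`). By
`hk_glue` for `w0, b, x', x''`: not `Hk R [b, x', x'']`, so `R b x'`. `x = b` or `R x b` (`Cr.last`): `R x x'`.
So `[x, x', x'']` is no hook word; rows `≥1 0 ≥1`.
BBG: `Cr R u x y w`, `Cr R w x' y' w'`, `Hk R (w' ++ [x''])`. If `¬ R x x'`: hook word. If `R x x'`: `[x, x']` is a
sublist of `w'` (`px`), so `[x, x', x'']` is a sublist of `w' ++ [x'']`. Rows `≥1 ≥1 0`.
BBB: `pk_bbb` and the induction hypothesis for `T0, y, y', y''`; the rows are all larger by one, this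
does not change the condition.
`hk_pth`: induction on the length of `w` (for all `T`): words of length at most two are hook words
(`hk_nil`, `hk_one`, `hk_two`), their paths too. `w = x :: x' :: x'' :: w3`: `hk_glue'` for `R` and for
`Rp`: `Hk R w ↔ Hk R [x,x',x''] ∧ Hk R (x' :: x'' :: w3)`, `pth` is
`r :: r' :: r'' :: pth ..`; `peak3` (`ins_spec`, `ins_ch`) and the induction hypothesis for
`iT R T x`, `x' :: x'' :: w3`.
-/

set_option autoImplicit false

namespace Pool.Agent.H71.RW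

variable {α : Type*} {R : α → α → Prop}

theorem sup_Rp : Sup Rp := by
  constructor
  · intro a b c h1 h2
    exact le_trans h2 h1
  · intro a b c h1 h2
    unfold Rp at *
    omega

theorem peak3 (h : Sup R) {T T1 T2 T3 : List (List α)} {x x' x'' : α} {r r' r'' : ℕ}
    (h1 : Ins R T x T1 r) (h2 : Ins R T1 x' T2 r') (h3 : Ins R T2 x'' T3 r'') :
    Hk R [x, x', x''] ↔ Hk Rp [r, r', r''] := by
  sorry

theorem hk_pth (h : Sup R) (w : List α) {T : List (List α)} (hT : Ch R T) :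
    Hk R w ↔ Hk Rp (pth R T w) := by
  sorry

end Pool.Agent.H71.RW
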