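import Pool.Agent.H71.RW.Peak

/-!
# PieM: the Pieri rule for the sums over chains (90 lines)

COMPLETE PROOF. `MM_nil`. Let `St l`, `1 ≤ k`. By `MM_one` the left side is
`∑ T ∈ SS R l, ∑ w ∈ HW R k, FT f T * [w]` = the sum over `w ∈ listsOver univ k` with
`Hk Rp (pth R T w)` (`hk_pth`; `T` is a chain). For each `T` and `w` the path `ρ = pth R T w` is in
`listsOver (range (l.length + k)) k` (`pth_len`, `pth_lt`; `T.length = l.length`) and `Adm l ρ` (`pth_adm`). So (`Finset.sum_fiberwise_of_maps_to` or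
`Finset.sum_comm` with indicators) it is `∑ ρ ∈ HP l k, ∑ T, ∑ w with pth R T w = ρ, FT f T * [w]`, and by
`path_sum` (`ρ.length = k`, `Adm l ρ`) this is `∑ ρ ∈ HP l k, MM R f (addL l ρ)`.
-/

set_option autoImplicit false

open Finset

namespace Pool.Agent.H71.RW

variable {α : Type*} {R : α → α → Prop}

theorem pie_MM (h : Sup R) [Fintype α] {S : Type*} [Ring S] {f : α → S} (hf : Rels R f) :
    Pie (MM R f) := by
  sorry

end Pool.Agent.H71.RW
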