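import Pool.Agent.H71.RW.PkA

/-!
MP_1e629d_co, part (D), peak rule: three consecutive crossings of a peak give a descent at the end.
-/

set_option autoImplicit false

namespace Pool.Agent.H71.RW

variable {α : Type*}

theorem pkB_fun {R : α → α → Prop} (h : Sup R) {N : ℕ} {u w w' w'' : ℕ → α}
    {x y x' y' x'' y'' : α} {n i j n' i' j' n'' i'' j'' : ℕ}
    (h1 : PkIdx R N u x y w n i j) (h2 : PkIdx R N w x' y' w' n' i' j')
    (h3 : PkIdx R N w' x'' y'' w'' n'' i'' j'') (hx : R x x') (hx' : ¬ R x' x'') :
    ¬ R y' y'' := by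
  obtain ⟨hj, hi⟩ := pk_pos h h1 h2 hx
  have l1 := h1.lin
  have l2 := h1.lnj
  have l3 := h2.lin
  have l4 := h2.lnj
  have l5 := h3.lin
  have l6 := h3.lnj
  have hwx : w' j = x := by
    rw [h2.oth j (by omega) (by omega), h1.wj]
  have hn : n'' ≤ j' := by
    by_contra hcon
    have e := h3.dl j j' hj (not_le.1 hcon)
    rw [hwx, h2.wj] at e
    exact e hx
  have hjj : j'' ≤ j' := by
    by_contra hcon
    have e := h3.before j' hn (not_le.1 hcon)
    rw [h2.wj] at e
    exact hx' e
  have hbc : ¬ R (w' i') (w' j'') := by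
    rw [h2.wi]
    rcases lt_or_eq_of_le hjj with hlt | heq
    · have e := h3.al j'' j' l6 hlt h2.ljN
      rw [h2.wj] at e
      exact fun hc => h2.nax (h.tr _ _ _ hc e)
    · rw [heq, h2.wj]
      exact h2.nax
  have hy'' : w' i'' = y'' := h3.ui
  have hyc : R (w' i'') (w' j'') := by rw [hy'']; exact h3.rya
  have hne : i'' ≠ i' := by
    intro hc
    rw [hc] at hyc
    exact hbc hyc
  have hlt : i' < i'' := by
    by_contra hcon
    have hl : i'' < i' := by omega
    have e := h2.nea i'' hl
    have e2 : w' i'' = w i'' := h2.oth i'' hne (by omega)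
    have e3 : w' i' = w j' := h2.wi
    refine h.nt _ _ _ ?_ hbc hyc
    rw [e2, e3]
    exact e
  have e0 : w' i'' = w i'' := h2.oth i'' hne (by omega)
  have hyw : y'' = w i'' := by rw [← hy'', e0]
  have hy' : y' = w i' := h2.ui.symm
  rcases lt_or_ge i'' n' with hc | hc
  · rw [hyw, hy']
    exact h2.dl i' i'' hlt hc
  -- `y''` is the first letter of the ascending part
  have hin : i'' = n' := by
    by_contra hcon
    have hl : n' < i'' := by omega
    have e := h2.al n' i'' le_rfl hl (by have := h2.ljN; omega)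
    have e2 := h3.dl n' i'' hl l5
    rw [e0, h2.oth n' (by omega) (by omega)] at e2
    exact e2 e
  have haw : w i = u j := h1.wi
  rw [hyw, hy']
  rcases lt_trichotomy j i'' with hc1 | hc1 | hc1
  · -- `x` stands before `y''`
    exfalso
    have e := h3.dl j i'' hc1 l5
    rw [hwx, e0, h1.oth i'' (by omega) (by omega)] at e
    have e2 := h1.al j i'' l2 hc1 (by have := h2.ljN; omega)
    exact h.nt _ _ _ h1.nax e e2
  · -- `y'' = x`
    have ex : w i'' = x := by rw [← hc1]; exact h1.wj
    rw [ex]
    rcases lt_or_eq_of_le hi with hc2 | hc2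
    · have e := h1.nea i' hc2
      rw [h1.oth i' (by omega) (by omega)]
      exact h.nt _ _ _ e h1.nax
    · rw [hc2, haw]
      exact h1.nax
  · -- `y''` stands before `x`
    have hsame : i'' ≠ i → w i'' = u i'' := fun hq => h1.oth i'' hq (by omega)
    rcases lt_or_ge i'' n with hc3 | hc3
    · rcases lt_trichotomy i i'' with hc4 | hc4 | hc4
      · rw [hsame (by omega)]
        rcases lt_or_eq_of_le hi with hc2 | hc2
        · rw [h1.oth i' (by omega) (by omega)]
          exact h1.dl i' i'' hlt hc3
        · rw [hc2, haw]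
          intro hr
          have e := h1.dl i i'' hc4 hc3
          rw [h1.ui] at e
          exact e (h.tr _ _ _ h1.rya hr)
      · rw [← hc4, haw, h1.oth i' (by omega) (by omega)]
        exact h1.nea i' (by omega)
      · rw [hsame (by omega), h1.oth i' (by omega) (by omega)]
        exact h1.dl i' i'' hlt hc3
    · have hb := h1.before i'' hc3 hc1
      rw [hsame (by omega)]
      rcases lt_or_eq_of_le hi with hc2 | hc2
      · have e := h3.dl i i'' (by omega) l5
        rw [h2.oth i (by omega) (by omega), haw, e0, hsame (by omega)] at e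
        rw [h1.oth i' (by omega) (by omega)]
        exact h.nt _ _ _ (h1.nea i' hc2) e
      · rw [hc2, haw]
        exact fun hr => h1.nax (h.tr _ _ _ hr hb)

theorem p2 {R : α → α → Prop} {u w w' w'' : List α} {x y x' y' x'' y'' : α} (h : Sup R)
    (h1 : Cr R u x y w) (h2 : Cr R w x' y' w') (h3 : Cr R w' x'' y'' w'') (hx : R x x')
    (hx' : ¬ R x' x'') : ¬ R y' y'' := by
  obtain ⟨hl1, n, i, j, H1⟩ := pk_idx x h1
  obtain ⟨hl2, n', i', j', H2⟩ := pk_idx x h2
  obtain ⟨hl3, n'', i'', j'', H3⟩ := pk_idx x h3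
  rw [hl1] at H2
  rw [hl2, hl1] at H3
  exact pkB_fun h H1 H2 H3 hx hx'

end Pool.Agent.H71.RW
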