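import Pool.Agent.H71.RW.PkB
import Pool.Agent.H19.RWp.Bridge

/-!
# PkC: three crossings preserve hook triples (50 lines)

COMPLETE PROOF. `p3` (`R y y'`, `¬ R y' y''` imply `R x x'`): by `cr_rev`
`Cr (Rv R) w''.reverse y'' x'' w'.reverse`, `Cr (Rv R) w'.reverse y' x' w.reverse`,
`Cr (Rv R) w.reverse y x u.reverse`. `p2` for `Rv R` (`h.rv`): `Rv R y'' y'` (= `¬ R y' y''`) and
`¬ Rv R y' y` (= `R y y'`, `not_not`) imply `¬ Rv R x' x` = `R x x'`.
`pk_bbb`: by `hk_three` both sides are `¬ (R . . ∧ ¬ R . .)`. If `R x x'`, `¬ R x' x''`: `R y y'` (`p1`), `¬ R y' y''`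
(`p2`). If `R y y'`, `¬ R y' y''`: `R x x'` (`p3`), and `R x' x''` would give `R y' y''` (`p1`).
-/

set_option autoImplicit false

namespace Pool.Agent.H71.RW

variable {α : Type*} {R : α → α → Prop}

private theorem pkC_rv (h : Sup R) : Sup (Rv R) :=
  ⟨fun _ _ _ h1 h2 => h.nt _ _ _ h2 h1,
    fun _ _ _ h1 h2 h3 => h3 (h.tr _ _ _ (not_not.1 h2) (not_not.1 h1))⟩

private theorem pkC_three (h : Sup R) (a b c : α) : Hk R [a, b, c] ↔ ¬ (R a b ∧ ¬ R b c) := by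
  constructor
  · rintro h1 ⟨h2, h3⟩
    exact h3 (Pool.Agent.H19.RWp.B.hk_three h1 h2)
  · intro h1
    by_cases hab : R a b
    · have hbc : R b c := by
        by_contra hcon
        exact h1 ⟨hab, hcon⟩
      refine ⟨[], [a, b, c], rfl, List.Pairwise.nil, ?_⟩
      have hac : R a c := h.tr _ _ _ hab hbc
      simp [AL, hab, hbc, hac]
    · refine ⟨[a, b], [c], rfl, ?_, ?_⟩
      · simp [DL, hab]
      · simp [AL]

theorem p3 (h : Sup R) {u w w' w'' : List α} {x x' x'' y y' y'' : α} (h1 : Cr R u x y w)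
    (h2 : Cr R w x' y' w') (h3 : Cr R w' x'' y'' w'') (hy : R y y') (hy' : ¬ R y' y'') :
    R x x' := by
  have h4 := p2 (R := Rv R) (pkC_rv h) (Pool.Agent.H19.RWp.B.cr_rv h h3)
    (Pool.Agent.H19.RWp.B.cr_rv h h2) (Pool.Agent.H19.RWp.B.cr_rv h h1) hy' (fun h5 => h5 hy)
  exact not_not.1 h4

theorem pk_bbb (h : Sup R) {u w w' w'' : List α} {x x' x'' y y' y'' : α} (h1 : Cr R u x y w)
    (h2 : Cr R w x' y' w') (h3 : Cr R w' x'' y'' w'') :
    Hk R [x, x', x''] ↔ Hk R [y, y', y''] := by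
  rw [pkC_three h, pkC_three h, not_iff_not]
  constructor
  · rintro ⟨h4, h5⟩
    exact ⟨p1 h h1 h2 h4, p2 h h1 h2 h3 h4 h5⟩
  · rintro ⟨h4, h5⟩
    exact ⟨p3 h h1 h2 h3 h4 h5, fun h6 => h5 (p1 h h2 h3 h6)⟩

end Pool.Agent.H71.RW
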