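import Pool.Agent.H71.RW.PkA

/-!
MP_1e629d_co, part (D), peak rule: after two crossings of an ascent both letters stand in the row.
-/

set_option autoImplicit false

namespace Pool.Agent.H71.RW

variable {α : Type*}

theorem pkX_sub (l : List α) (z : α) (i j : ℕ) (hij : i < j) (hj : j < l.length) :
    [l.getD i z, l.getD j z].Sublist l := by
  rw [List.getD_eq_getElem _ _ hj, List.getD_eq_getElem _ _ (hij.trans hj)]
  have h1 : [l[i]].Sublist (l.take (i + 1)) := by
    rw [List.singleton_sublist]
    have h2 : i < (l.take (i + 1)).length := by rw [List.length_take]; omega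
    have h3 : (l.take (i + 1))[i] = l[i] := List.getElem_take
    rw [← h3]
    exact List.getElem_mem h2
  have h4 : [l[j]].Sublist (l.drop (i + 1)) := by
    rw [List.singleton_sublist]
    have h2 : j - (i + 1) < (l.drop (i + 1)).length := by rw [List.length_drop]; omega
    have h3 : (l.drop (i + 1))[j - (i + 1)] = l[j] := by
      rw [List.getElem_drop]
      congr 1
      omega
    rw [← h3]
    exact List.getElem_mem h2
  have h5 := h1.append h4
  rw [List.take_append_drop] at h5
  exact h5

theorem pX {R : α → α → Prop} {u w w' : List α} {x y x' y' : α} (h : Sup R)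
    (h1 : Cr R u x y w) (h2 : Cr R w x' y' w') (hx : R x x') : [x, x'].Sublist w' := by
  obtain ⟨hl1, n, i, j, H1⟩ := pk_idx x h1
  obtain ⟨hl2, n', i', j', H2⟩ := pk_idx x h2
  rw [hl1] at H2
  obtain ⟨hj, hi⟩ := pk_pos h H1 H2 hx
  have e1 : w'.getD j x = x := by
    have e2 : w'.getD j x = w.getD j x :=
      H2.oth j (by have := H1.lin; have := H1.lnj; omega) (by omega)
    have e3 : w.getD j x = x := H1.wj
    rw [e2, e3]
  have e4 : w'.getD j' x = x' := H2.wj
  have e5 := pkX_sub w' x j j' hj (by rw [hl2, hl1]; exact H2.ljN)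
  rw [e1, e4] at e5
  exact e5

end Pool.Agent.H71.RW
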