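import Pool.Agent.H71.RW.InsB

/-!
# SumA: the finite sets (110 lines)

COMPLETE PROOFS. `mem_listsOver`: induction on `k` (a list of length `k + 1` is `a :: l`).
`sum_listsOver_succ`: `Finset.sum_image` (injective on pairs) and `Finset.sum_product`.
`mem_shp`: induction on `l`. `mem_SS`: `filter`. `SS_ns`: by `ch_st`. `SS_cons`: `T ∈ SS R (n :: l)` is
`u :: T2` with the conditions of `Ch` (unfold). `MM_nil`: `SS R [] = {[]}`. `MM_one`: for `n ≥ 1` the map
`w ↦ [w]` is a bijection from `HW R n` to `SS R [n]` and `FT f [w] = 1 * (w.map f).prod`.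
-/

set_option autoImplicit false

open Finset

namespace Pool.Agent.H71.RW

variable {α : Type*} {R : α → α → Prop}

theorem mem_listsOver {β : Type*} (S : Finset β) (k : ℕ) (l : List β) :
    l ∈ listsOver S k ↔ l.length = k ∧ ∀ a ∈ l, a ∈ S := by
  sorry

theorem sum_listsOver_succ {β M : Type*} [AddCommMonoid M] (S : Finset β) (k : ℕ)
    (φ : List β → M) :
    ∑ l ∈ listsOver S (k + 1), φ l = ∑ a ∈ S, ∑ l ∈ listsOver S k, φ (a :: l) := by
  sorry

section

variable [Fintype α] {S : Type*} [Ring S]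

theorem mem_HW (n : ℕ) (w : List α) : w ∈ HW R n ↔ w.length = n ∧ Hk R w := by
  sorry

theorem mem_shp (l : List ℕ) (T : List (List α)) : T ∈ shp l ↔ T.map List.length = l := by
  sorry

theorem mem_SS (l : List ℕ) (T : List (List α)) :
    T ∈ SS R l ↔ Ch R T ∧ T.map List.length = l := by
  sorry

theorem SS_ns {l : List ℕ} (hl : ¬ St l) : SS R l = (∅ : Finset (List (List α))) := by
  sorry

theorem MM_ns (f : α → S) {l : List ℕ} (hl : ¬ St l) : MM R f l = 0 := by
  rw [MM, SS_ns hl, Finset.sum_empty]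

theorem MM_nil (f : α → S) : MM R f [] = 1 := by
  sorry

theorem MM_one (f : α → S) {n : ℕ} (hn : 1 ≤ n) :
    MM R f [n] = ∑ w ∈ HW R n, (w.map f).prod := by
  sorry

end

end Pool.Agent.H71.RW
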