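import Pool.Agent.H71.RW.SumA

/-!
# SumB: one insertion step in sums (90 lines)

COMPLETE PROOFS. `iT`, `iR` are chosen. `ins_spec`: `ins_ex` and `Classical.choose_spec`.
`ins_eq`: from `ins_spec` and `ins_det`.
`step`: `Finset.sum_sigma'` (or `sum_product` with an indicator) and `Finset.sum_bij'` (or
`Finset.sum_bij`): the pairs `(T, x)`, `T ∈ SS R l`, `iR R T x = r` are mapped to `iT R T x`. Well defined:
`ins_ch`, `ins_shape`. Injective: `ins_det'` (both `T` are chains). Surjective: `ins_back` (`St l`) gives `T, x` with
`Ins R T x T' r`, `T ∈ SS R l`, and by `ins_eq` `iT R T x = T'`, `iR R T x = r`. Values: `hψ`.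
-/

set_option autoImplicit false

open Finset

namespace Pool.Agent.H71.RW

variable {α : Type*}

open Classical in
/-- the chain after the insertion. -/
noncomputable def iT (R : α → α → Prop) (T : List (List α)) (x : α) : List (List α) :=
  if h : ∃ p : List (List α) × ℕ, Ins R T x p.1 p.2 then h.choose.1 else []

open Classical in
/-- the row which grows. -/
noncomputable def iR (R : α → α → Prop) (T : List (List α)) (x : α) : ℕ :=
  if h : ∃ p : List (List α) × ℕ, Ins R T x p.1 p.2 then h.choose.2 else 0

variable {R : α → α → Prop}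

theorem ins_spec (h : Sup R) {T : List (List α)} (hT : Ch R T) (x : α) :
    Ins R T x (iT R T x) (iR R T x) := by
  sorry

theorem ins_eq (h : Sup R) {T T' : List (List α)} {x : α} {r : ℕ} (hi : Ins R T x T' r) :
    iT R T x = T' ∧ iR R T x = r := by
  sorry

open Classical in
theorem step (h : Sup R) [Fintype α] {M : Type*} [AddCommMonoid M] {l : List ℕ} (hl : St l)
    (r : ℕ) (ψ : List (List α) → α → M) (φ : List (List α) → M)
    (hψ : ∀ T x T', Ch R T → Ins R T x T' r → ψ T x = φ T') :
    ∑ T ∈ SS R l, ∑ x ∈ univ.filter (fun x => iR R T x = r), ψ T x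
      = ∑ T' ∈ SS R (add l r), φ T' := by
  sorry

end Pool.Agent.H71.RW
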